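import Pool.Agent.MP_8c2300_lc.pp.Num
import Pool.Agent.MP_8c2300_lc.pp.Hole

-- ======== part 0: formerly Pool.Agent.MP_8c2300_lc.h39.Basic
section MrgPart0

/-! Size-free depth reduction for graphs with `K` pages: definitions and the induction on `K`. -/

namespace Pool.Agent.MP_8c2300_lc.H39

open Finset Pool.Agent.MP_8c2300_lc.PP

variable {ι : Type}

/-- Forward edges on `K` pages, no two edges of one page cross. -/
def Pg (K : ℕ) (E : Finset ι) (s t pg : ι → ℕ) : Prop :=
  (∀ e ∈ E, s e < t e ∧ pg e < K) ∧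
    ∀ e ∈ E, ∀ e' ∈ E, pg e = pg e' → ¬ (s e < s e' ∧ s e' < t e ∧ t e < t e')

/-- A potential on the gaps: under an edge of page `j` a least value congruent to `j` is taken
only once. -/
def Uq (K ρ : ℕ) (E : Finset ι) (s t pg : ι → ℕ) (f : ℕ → ℕ) : Prop :=
  (∀ i, f i < ρ) ∧ ∀ e ∈ E, ∀ i i', s e ≤ i → i < i' → i' < t e → f i = f i' → f i % K = pg e →
    ∃ k, s e ≤ k ∧ k < t e ∧ f k < f i

/-- Cutting a fraction `γ` of the edges leaves depth below `D`. -/
def Red (E : Finset ι) (s t : ι → ℕ) (γ : ℝ) (D : ℕ) : Prop :=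
  ∃ C ⊆ E, (C.card : ℝ) ≤ γ * E.card ∧ ∃ l : ℕ → ℕ, (∀ z, l z < D) ∧
    ∀ e ∈ E, e ∉ C → l (s e) < l (t e)

def DR (K : ℕ) (γ : ℝ) (D : ℕ) : Prop :=
  ∀ (ι : Type) (E : Finset ι) (s t pg : ι → ℕ), Pg K E s t pg → Red E s t γ D

def DQ (K ρ : ℕ) (γ : ℝ) (D : ℕ) : Prop :=
  ∀ (ι : Type) (E : Finset ι) (s t pg : ι → ℕ) (f : ℕ → ℕ), Pg K E s t pg → Uq K ρ E s t pg f →
    Red E s t γ D

theorem Pg.mono {K : ℕ} {E E' : Finset ι} {s t pg : ι → ℕ} (h : Pg K E s t pg) (h' : E' ⊆ E) :
    Pg K E' s t pg :=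
  ⟨fun e he => h.1 e (h' he), fun e he e' he' => h.2 e (h' he) e' (h' he')⟩

theorem avg (A : Finset ℕ) (hA : A.Nonempty) (E : Finset ι) (P : ℕ → ι → Prop)
    [∀ a e, Decidable (P a e)] (n k : ℕ)
    (h : ∀ e ∈ E, (A.filter fun a => P a e).card * k ≤ n * A.card) :
    ∃ a ∈ A, (E.filter fun e => P a e).card * k ≤ n * E.card := by
  refine Finset.exists_le_of_sum_le hA ?_
  rw [← Finset.sum_mul]
  simp only [Finset.card_filter]
  rw [Finset.sum_comm, Finset.sum_mul]
  calc _ ≤ ∑ _e ∈ E, n * A.card := by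
        refine Finset.sum_le_sum fun e he => ?_
        rw [← Finset.card_filter]
        exact h e he
    _ = _ := by simp; ring

theorem sum_fiber (E : Finset ι) (c : ι → ℕ) (S : Finset ℕ) :
    ∑ k ∈ S, (E.filter fun e => c e = k).card ≤ E.card := by
  classical
  rw [Finset.sum_card_fiberwise_eq_card_filter]
  exact card_filter_le _ _

theorem Red.union {E : Finset ι} {s t : ι → ℕ} {γ : ℝ} {D : ℕ} (hγ : 0 ≤ γ) (κ : ℕ → ℕ)
    (hκ : ∀ e ∈ E, κ (s e) = κ (t e))
    (h : ∀ c, Red (E.filter fun e => κ (s e) = c) s t γ D) : Red E s t γ D := by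
  classical
  choose C hC hc l hl hm using h
  refine ⟨(E.image fun e => κ (s e)).biUnion C, ?_, ?_, fun z => l (κ z) z, fun z => hl _ _, ?_⟩
  · intro e he
    obtain ⟨c, -, h⟩ := mem_biUnion.1 he
    exact (mem_filter.1 (hC c h)).1
  · have h1 := sum_fiber E (fun e => κ (s e)) (E.image fun e => κ (s e))
    calc _ ≤ ((∑ c ∈ E.image fun e => κ (s e), (C c).card : ℕ) : ℝ) := by
          exact_mod_cast card_biUnion_le
      _ ≤ ∑ c ∈ E.image fun e => κ (s e), γ * (E.filter fun e => κ (s e) = c).card := by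
          push_cast; exact Finset.sum_le_sum fun c _ => hc c
      _ ≤ _ := by
          rw [← Finset.mul_sum]
          exact mul_le_mul_of_nonneg_left (by exact_mod_cast h1) hγ
  · intro e he hn
    have := hm (κ (s e)) e (mem_filter.2 ⟨he, rfl⟩) fun h =>
      hn (mem_biUnion.2 ⟨_, mem_image_of_mem _ he, h⟩)
    simpa [← hκ e he] using this

theorem Red.cut {E : Finset ι} {s t : ι → ℕ} {γ δ : ℝ} {D : ℕ} (hγ : 0 ≤ γ) (P : ι → Prop)
    [DecidablePred P] (hP : ((E.filter P).card : ℝ) ≤ δ * E.card)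
    (h : Red (E.filter fun e => ¬ P e) s t γ D) : Red E s t (γ + δ) D := by
  classical
  obtain ⟨C, hC, hc, l, hl, hm⟩ := h
  refine ⟨C ∪ E.filter P, union_subset (hC.trans (filter_subset _ _)) (filter_subset _ _), ?_,
    l, hl, fun e he hn => hm e (mem_filter.2 ⟨he, fun hp => hn ?_⟩) fun h => hn ?_⟩
  · have h1 : ((C ∪ E.filter P).card : ℝ) ≤ C.card + (E.filter P).card := by
      exact_mod_cast card_union_le _ _
    have h2 : ((E.filter fun e => ¬ P e).card : ℝ) ≤ E.card := by
      exact_mod_cast card_filter_le _ _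
    have := mul_le_mul_of_nonneg_left h2 hγ
    linarith
  · exact mem_union_right _ (mem_filter.2 ⟨he, hp⟩)
  · exact mem_union_left _ h

theorem card_shift (p p' r : ℕ) (hr : 0 < r) (h : p ≤ p') :
    ((range r).filter fun a => (p + a) / r ≠ (p' + a) / r).card ≤ p' - p := by
  have hsub : ((range r).filter fun a => (p + a) / r ≠ (p' + a) / r) ⊆
      (Ioc p p').biUnion fun u => (range (1 * r)).filter fun a => r ∣ u + a := by
    intro a ha
    rw [mem_filter] at ha
    have h4 : (p + a) / r ≤ (p' + a) / r := Nat.div_le_div_right (by omega)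
    have h5 : p + a < (p' + a) / r * r := (Nat.div_lt_iff_lt_mul hr).1 (lt_of_le_of_ne h4 ha.2)
    have h6 : (p' + a) / r * r ≤ p' + a := Nat.div_mul_le_self _ _
    refine mem_biUnion.2 ⟨(p' + a) / r * r - a, mem_Ioc.2 ⟨by omega, by omega⟩,
      mem_filter.2 ⟨by simpa using ha.1, ?_⟩⟩
    rw [Nat.sub_add_cancel (by omega)]
    exact Dvd.intro_left _ rfl
  have h7 := (card_le_card hsub).trans
    (Finset.card_biUnion_le_card_mul _ _ _ fun u _ => Outer.card_dvd u 1 _ hr)
  simpa using h7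

/-- The number of gaps below `z` with potential at most `g`. -/
def col (f : ℕ → ℕ) (g z : ℕ) : ℕ := ((range z).filter fun i => f i ≤ g).card

theorem col_add (f : ℕ → ℕ) (g : ℕ) {a c : ℕ} (h : a ≤ c) :
    col f g c = col f g a + ((Ico a c).filter fun i => f i ≤ g).card := by
  unfold col
  rw [← card_union_of_disjoint, ← filter_union]
  · congr 2
    ext i; simp only [mem_union, mem_range, mem_Ico]; omega
  · exact disjoint_filter_filter (by
      rw [disjoint_left]; intro i h1 h2; simp only [mem_range, mem_Ico] at h1 h2; omega)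

/-- One stage: the edges whose least potential is `g`. -/
theorem stage {K ρ r D : ℕ} {γ : ℝ} (hγ : 0 ≤ γ) (hr : 0 < r) (h : DR K γ D) {E : Finset ι}
    {s t pg : ι → ℕ} {f : ℕ → ℕ} (hP : Pg (K + 1) E s t pg) (hU : Uq (K + 1) ρ E s t pg f) (g : ℕ)
    (hg : ∀ e ∈ E, (∀ i, s e ≤ i → i < t e → g ≤ f i) ∧ ∃ i, s e ≤ i ∧ i < t e ∧ f i = g) :
    ∃ C ⊆ E, (C.card : ℝ) ≤ (γ + 1 / r) * E.card ∧ ∃ l : ℕ → ℕ, (∀ z, l z < D * r) ∧
      ∀ e ∈ E, e ∉ C → l (col f g (s e)) < l (col f g (t e)) := by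
  classical
  set j := g % (K + 1) with hj
  have hjK : j < K + 1 := Nat.mod_lt _ (by omega)
  have hlt : ∀ e ∈ E, col f g (s e) < col f g (t e) := by
    intro e he
    obtain ⟨i, h1, h2, h3⟩ := (hg e he).2
    rw [col_add f g (hP.1 e he).1.le]
    have : 0 < ((Ico (s e) (t e)).filter fun i => f i ≤ g).card :=
      card_pos.2 ⟨i, mem_filter.2 ⟨mem_Ico.2 ⟨h1, h2⟩, h3.le⟩⟩
    omega
  have hone : ∀ e ∈ E, pg e = j → col f g (t e) ≤ col f g (s e) + 1 := by
    intro e he hp
    rw [col_add f g (hP.1 e he).1.le]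
    have key : ∀ i i', s e ≤ i → i < i' → i' < t e → f i ≤ g → f i' ≤ g → False := by
      intro i i' h1 h2 h3 h4 h5
      have a1 := (hg e he).1 i h1 (by omega)
      have a2 := (hg e he).1 i' (by omega) h3
      obtain ⟨k, k1, k2, k3⟩ := hU.2 e he i i' h1 h2 h3 (by omega)
        (by rw [hp, hj]; congr 1; omega)
      have := (hg e he).1 k k1 k2
      omega
    have : ((Ico (s e) (t e)).filter fun i => f i ≤ g).card ≤ 1 := by
      rw [card_le_one]
      intro i hi i' hi'
      simp only [mem_filter, mem_Ico] at hi hi'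
      by_contra hne
      rcases Nat.lt_or_gt_of_ne hne with h | h
      · exact key i i' hi.1.1 h hi'.1.2 hi.2 hi'.2
      · exact key i' i hi'.1.1 h hi.1.2 hi'.2 hi.2
    omega
  obtain ⟨a, -, ha⟩ := avg (range r) ⟨0, mem_range.2 hr⟩ E
    (fun a e => pg e = j ∧ (col f g (s e) + a) / r ≠ (col f g (t e) + a) / r) 1 r (by
      intro e he
      rw [card_range]
      refine Nat.mul_le_mul_right _ ?_
      by_cases hp : pg e = j
      · simp only [hp, true_and]
        have := hone e he hp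
        exact (card_shift _ _ r hr (hlt e he).le).trans (by omega)
      · simp [hp])
  set bl : ℕ → ℕ := fun z => (col f g z + a) / r with hbl
  have hmono : ∀ x y, bl x < bl y → x < y := by
    intro x y hxy
    by_contra hn
    have : col f g y ≤ col f g x := by rw [col_add f g (not_lt.1 hn)]; omega
    exact absurd hxy (not_lt.2 (Nat.div_le_div_right (by omega)))
  set F := E.filter fun e => pg e ≠ j ∧ bl (s e) ≠ bl (t e) with hF
  obtain ⟨C, hC, hc, l, hl, hm⟩ := h ι F (fun e => bl (s e)) (fun e => bl (t e))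
    (fun e => if pg e < j then pg e else pg e - 1) (by
      constructor
      · intro e he
        obtain ⟨h1, h2, h3⟩ := mem_filter.1 he
        have h4 := (hP.1 e h1).2
        refine ⟨lt_of_le_of_ne (Nat.div_le_div_right (by have := hlt e h1; omega)) h3, ?_⟩
        dsimp only
        split_ifs <;> omega
      · intro e he e' he' hp hx
        obtain ⟨h1, h2, -⟩ := mem_filter.1 he
        obtain ⟨h1', h2', -⟩ := mem_filter.1 he'
        refine hP.2 e h1 e' h1' ?_ ⟨hmono _ _ hx.1, hmono _ _ hx.2.1, hmono _ _ hx.2.2⟩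
        dsimp only at hp
        split_ifs at hp <;> omega)
  refine ⟨C ∪ E.filter fun e => pg e = j ∧ bl (s e) ≠ bl (t e),
    union_subset (hC.trans (filter_subset _ _)) (filter_subset _ _), ?_,
    fun c => l ((c + a) / r) * r + (c + a) % r, fun c => ?_, ?_⟩
  · have h1 : ((C ∪ E.filter fun e => pg e = j ∧ bl (s e) ≠ bl (t e)).card : ℝ) ≤
        C.card + (E.filter fun e => pg e = j ∧ bl (s e) ≠ bl (t e)).card := by
      exact_mod_cast card_union_le _ _
    have h2 : (F.card : ℝ) ≤ E.card := by exact_mod_cast card_filter_le _ _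
    have h3 := mul_le_mul_of_nonneg_left h2 hγ
    have h4 : ((E.filter fun e => pg e = j ∧ bl (s e) ≠ bl (t e)).card : ℝ) ≤ 1 / r * E.card := by
      have hr' : (0 : ℝ) < r := by exact_mod_cast hr
      rw [one_div, inv_mul_eq_div, le_div_iff₀ hr']
      exact_mod_cast (one_mul E.card ▸ ha)
    linarith
  · have h1 := hl ((c + a) / r)
    have h2 := Nat.mod_lt (c + a) hr
    nlinarith
  · intro e he hn
    have h0 := hlt e he
    by_cases hb : bl (s e) = bl (t e)
    · have h1 := Nat.div_add_mod (col f g (s e) + a) r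
      have h2 := Nat.div_add_mod (col f g (t e) + a) r
      simp only [hbl] at hb
      simp only [hb]
      rw [hb] at h1
      omega
    · have hp : pg e ≠ j := fun hp => hn (mem_union_right _ (mem_filter.2 ⟨he, hp, hb⟩))
      have h1 := hm e (mem_filter.2 ⟨he, hp, hb⟩) fun h => hn (mem_union_left _ h)
      have h2 := Nat.mod_lt (col f g (s e) + a) hr
      simp only [hbl] at h1
      have h3 := Nat.mul_le_mul_right r (Nat.succ_le_of_lt h1)
      rw [Nat.succ_mul] at h3
      dsimp only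
      omega

/-- With a bounded potential one page can be removed. -/
theorem fin_step {K ρ r D : ℕ} {γ : ℝ} (hγ : 0 ≤ γ) (hr : 0 < r) (h : DR K γ D) :
    DQ (K + 1) ρ (γ + 1 / r) ((D * r) ^ ρ) := by
  classical
  intro ι E s t pg f hP hU
  have hex : ∀ e : ι, ∃ g, e ∈ E → (∀ i, s e ≤ i → i < t e → g ≤ f i) ∧
      ∃ i, s e ≤ i ∧ i < t e ∧ f i = g := by
    intro e
    by_cases he : e ∈ E
    · obtain ⟨i, hi, hm⟩ := exists_min_image (Ico (s e) (t e)) f
        ⟨s e, mem_Ico.2 ⟨le_rfl, (hP.1 e he).1⟩⟩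
      exact ⟨f i, fun _ => ⟨fun k h1 h2 => hm k (mem_Ico.2 ⟨h1, h2⟩), i, (mem_Ico.1 hi).1,
        (mem_Ico.1 hi).2, rfl⟩⟩
    · exact ⟨0, fun h => absurd h he⟩
  choose gm hgm using hex
  have hst := fun g => stage hγ hr h (E := E.filter fun e => gm e = g)
    (hP.mono (filter_subset _ _)) ⟨hU.1, fun e he => hU.2 e (mem_filter.1 he).1⟩ g
    fun e he => (mem_filter.1 he).2 ▸ hgm e (mem_filter.1 he).1
  choose C hC hc l hl hm using hst
  have hγ' : 0 ≤ γ + 1 / r := by positivity
  have key : ∀ n, ∃ L : ℕ → ℕ, (∀ z, L z < (D * r) ^ n) ∧ ∀ e ∈ E, e ∉ C (gm e) →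
      (n ≤ gm e → L (s e) = L (t e)) ∧ (gm e < n → L (s e) < L (t e)) := by
    intro n
    induction n with
    | zero => exact ⟨fun _ => 0, by simp, by simp⟩
    | succ n ih =>
      obtain ⟨L, h1, h2⟩ := ih
      refine ⟨fun z => L z * (D * r) + l n (col f n z), fun z => ?_, fun e he hn => ⟨?_, ?_⟩⟩
      · have a1 := h1 z
        have a2 := hl n (col f n z)
        rw [pow_succ]
        nlinarith
      · intro hg
        have a1 : col f n (t e) = col f n (s e) := by
          rw [col_add f n (hP.1 e he).1.le, filter_eq_empty_iff.2, card_empty, add_zero]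
          intro i hi
          have := (hgm e he).1 i (mem_Ico.1 hi).1 (mem_Ico.1 hi).2
          omega
        simp only [a1, (h2 e he hn).1 (by omega)]
      · intro hg
        rcases Nat.lt_succ_iff_lt_or_eq.1 hg with hg | hg
        · have a1 := (h2 e he hn).2 hg
          have a2 := hl n (col f n (s e))
          nlinarith
        · have a1 := hm n e (mem_filter.2 ⟨he, hg⟩) (hg ▸ hn)
          simp only [(h2 e he hn).1 hg.ge]
          omega
  obtain ⟨L, h1, h2⟩ := key ρ
  refine ⟨(E.image gm).biUnion C, ?_, ?_, L, h1, fun e he hn => (h2 e he fun h =>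
    hn (mem_biUnion.2 ⟨_, mem_image_of_mem _ he, h⟩)).2 ?_⟩
  · intro e he
    obtain ⟨c, -, h⟩ := mem_biUnion.1 he
    exact (mem_filter.1 (hC c h)).1
  · have h1 := sum_fiber E gm (E.image gm)
    calc _ ≤ ((∑ c ∈ E.image gm, (C c).card : ℕ) : ℝ) := by exact_mod_cast card_biUnion_le
      _ ≤ ∑ c ∈ E.image gm, (γ + 1 / r) * (E.filter fun e => gm e = c).card := by
          push_cast; exact Finset.sum_le_sum fun c _ => hc c
      _ ≤ _ := by
          rw [← Finset.mul_sum]
          exact mul_le_mul_of_nonneg_left (by exact_mod_cast h1) hγ'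
  · obtain ⟨i, -, -, h3⟩ := (hgm e he).2
    exact h3 ▸ hU.1 i

end Pool.Agent.MP_8c2300_lc.H39

end MrgPart0

-- ======== part 1: formerly Pool.Agent.MP_8c2300_lc.h39.Look
section MrgPart1

/-! Hole counting with look-ahead, and the cyclic page counter. -/

namespace Pool.Agent.MP_8c2300_lc.H39

open Finset Pool.Agent.MP_8c2300_lc.PP

theorem two_mul_pow_le (W : ℕ) : (2 ^ W - 1) ^ 2 ^ W * 2 ≤ (2 ^ W) ^ 2 ^ W := by
  have h := Num.half_pow W
  have h0 : (0 : ℝ) < 2 ^ W := by positivity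
  rw [show (1 : ℝ) - 1 / 2 ^ W = (2 ^ W - 1) / 2 ^ W by field_simp, div_pow,
    div_le_div_iff₀ (by positivity) (by norm_num), one_mul] at h
  have h1 : 1 ≤ 2 ^ W := Nat.one_le_two_pow
  have : (((2 ^ W - 1) ^ 2 ^ W * 2 : ℕ) : ℝ) ≤ ((2 ^ W) ^ 2 ^ W : ℕ) := by
    push_cast [Nat.cast_sub h1]
    exact h
  exact_mod_cast this

open Classical in
/-- Few points see many active nodes and avoid every hole that has a further active node below. -/
theorem look (b q M : ℕ) (act : ℕ → ℕ → Prop) (ho : ℕ → ℕ → ℕ)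
    (hact : ∀ h x, act h x → b + 1 ≤ h ∧ ho h x / 2 ^ b = x) (Z : Finset ℕ)
    (hZ : ∀ z ∈ Z, z < 2 ^ M ∧
      (∀ h h', act h (z / 2 ^ h) → act h' (z / 2 ^ h') → h' + b ≤ h →
        z / 2 ^ (h - b) ≠ ho h (z / 2 ^ h)) ∧
      (b + 1) * ((b + 1) * (2 ^ (b + 1) * q)) ≤
        ((range M).filter fun h => act h (z / 2 ^ h)).card) :
    Z.card * 2 ^ q ≤ 2 * (b + 1) ^ 2 * 2 ^ M := by
  set Q := 2 ^ (b + 1) * q with hQ
  set S : ℕ × ℕ → Finset ℕ := fun p => (range (2 ^ M)).filter fun z =>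
    (∀ h < M, (act h (z / 2 ^ h) ∧ h % (b + 1) = p.1) →
      z / 2 ^ (h - (b + 1)) ≠ 2 * ho h (z / 2 ^ h) + p.2) ∧
    (b + 1) * Q ≤ ((range M).filter fun h => act h (z / 2 ^ h) ∧ h % (b + 1) = p.1).card with hS
  have h1 : ∀ p ∈ range (b + 1) ×ˢ range 2, (S p).card * 2 ^ q ≤ (b + 1) * 2 ^ M := by
    intro p hp
    have hp2 := mem_range.1 (mem_product.1 hp).2
    have a1 := hole (b + 1) Q M M (fun h x => act h x ∧ h % (b + 1) = p.1)
      (fun h x => 2 * ho h x + p.2) (by omega) le_rfl (by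
        intro h x hx
        refine ⟨(hact h x hx.1).1, ?_⟩
        rw [pow_succ', ← Nat.div_div_eq_div_mul,
          show (2 * ho h x + p.2) / 2 = ho h x by omega, (hact h x hx.1).2])
    have a2 : (S p).card * (2 ^ (b + 1)) ^ Q ≤ (b + 1) * (2 ^ (b + 1) - 1) ^ Q * 2 ^ M := by
      refine le_trans (Nat.mul_le_mul_right _ (card_le_card fun z hz => ?_)) a1
      simp only [hS, mem_filter] at hz ⊢
      refine ⟨hz.1, hz.2.1, hz.2.2.trans (card_le_card fun h hh => ?_)⟩
      simpa only [mem_filter] using hh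
    have a3 : (2 ^ (b + 1) - 1) ^ Q * 2 ^ q ≤ (2 ^ (b + 1)) ^ Q := by
      rw [hQ, pow_mul, pow_mul, ← mul_pow]
      exact Nat.pow_le_pow_left (two_mul_pow_le _) _
    have a4 : 0 < (2 ^ (b + 1)) ^ Q := by positivity
    refine Nat.le_of_mul_le_mul_right ?_ a4
    calc (S p).card * 2 ^ q * (2 ^ (b + 1)) ^ Q = (S p).card * (2 ^ (b + 1)) ^ Q * 2 ^ q := by ring
      _ ≤ (b + 1) * (2 ^ (b + 1) - 1) ^ Q * 2 ^ M * 2 ^ q := Nat.mul_le_mul_right _ a2
      _ = (b + 1) * 2 ^ M * ((2 ^ (b + 1) - 1) ^ Q * 2 ^ q) := by ring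
      _ ≤ _ := Nat.mul_le_mul_left _ a3
  have h2 : Z ⊆ (range (b + 1) ×ˢ range 2).biUnion S := by
    intro z hz
    obtain ⟨z1, z2, z3⟩ := hZ z hz
    obtain ⟨ρ, hρ, hq⟩ := Finset.exists_le_card_fiber_of_mul_le_card_of_maps_to
      (s := (range M).filter fun h => act h (z / 2 ^ h)) (t := range (b + 1))
      (f := fun h => h % (b + 1)) (n := (b + 1) * Q)
      (fun h _ => mem_range.2 (Nat.mod_lt _ (by omega))) ⟨0, mem_range.2 (by omega)⟩
      (by rw [card_range]; exact z3)
    have key : ∃ i < 2, ∀ h, act h (z / 2 ^ h) → h % (b + 1) = ρ →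
        z / 2 ^ (h - (b + 1)) ≠ 2 * ho h (z / 2 ^ h) + i := by
      have half : ∀ h i, i < 2 → act h (z / 2 ^ h) →
          z / 2 ^ (h - (b + 1)) = 2 * ho h (z / 2 ^ h) + i →
            z / 2 ^ (h - b) = ho h (z / 2 ^ h) := by
        intro h i hi ha he
        have := (hact _ _ ha).1
        rw [show h - b = h - (b + 1) + 1 by omega, pow_succ, ← Nat.div_div_eq_div_mul, he]
        omega
      by_cases hit : ∃ h, act h (z / 2 ^ h) ∧ h % (b + 1) = ρ ∧
          z / 2 ^ (h - b) = ho h (z / 2 ^ h)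
      · obtain ⟨h0, a1, a2, a3⟩ := hit
        refine ⟨1 - z / 2 ^ (h0 - (b + 1)) % 2, by omega, fun h b1 b2 b3 => ?_⟩
        have b4 := half h _ (by omega) b1 b3
        have gap : ∀ u v, u % (b + 1) = v % (b + 1) → u < v → u + b ≤ v := by
          intro u v e hlt
          have := Nat.le_of_dvd (by omega) ((Nat.modEq_iff_dvd' hlt.le).1 e)
          omega
        rcases lt_trichotomy h h0 with hlt | rfl | hlt
        · exact z2 h0 h a1 b1 (gap _ _ (b2.trans a2.symm) hlt) a3
        · omega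
        · exact z2 h h0 b1 a1 (gap _ _ (a2.trans b2.symm) hlt) b4
      · exact ⟨0, by omega, fun h b1 b2 b3 => hit ⟨h, b1, b2, half h 0 (by omega) b1 b3⟩⟩
    obtain ⟨i, hi, key⟩ := key
    refine mem_biUnion.2 ⟨(ρ, i), mem_product.2 ⟨hρ, mem_range.2 hi⟩, ?_⟩
    simp only [hS, mem_filter]
    refine ⟨mem_range.2 z1, fun h _ hh => key h hh.1 hh.2, hq.trans (card_le_card fun h hh => ?_)⟩
    simpa only [mem_filter, and_assoc] using hh
  calc Z.card * 2 ^ q ≤ (∑ p ∈ range (b + 1) ×ˢ range 2, (S p).card) * 2 ^ q :=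
        Nat.mul_le_mul_right _ ((card_le_card h2).trans card_biUnion_le)
    _ ≤ ∑ _p ∈ range (b + 1) ×ˢ range 2, (b + 1) * 2 ^ M := by
        rw [Finset.sum_mul]; exact Finset.sum_le_sum h1
    _ = _ := by simp; ring

open Classical in
/-- The counter along the chain of the point `u`, after `d` levels below the root `M`: it waits
for an active node of the page given by its residue. -/
noncomputable def ctr (K M : ℕ) (A : ℕ → ℕ → ℕ → Prop) (u : ℕ) : ℕ → ℕ
  | 0 => 0
  | d + 1 => ctr K M A u d + if A (ctr K M A u d % K) (M - d) (u / 2 ^ (M - d)) then 1 else 0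

variable {K M : ℕ} {A : ℕ → ℕ → ℕ → Prop}

theorem ctr_mono (u : ℕ) : Monotone (ctr K M A u) :=
  monotone_nat_of_le_succ fun d => by rw [ctr]; omega

theorem ctr_congr {u v h : ℕ} (e : u / 2 ^ h = v / 2 ^ h) :
    ∀ d, d + h ≤ M + 1 → ctr K M A u d = ctr K M A v d := by
  intro d
  induction d with
  | zero => intro _; rfl
  | succ d ih =>
    intro hd
    rw [ctr, ctr, ih (by omega), same_mono e (show h ≤ M - d by omega)]

open Classical in
theorem ctr_bound (u j : ℕ) (hj : j < K) {d1 d2 : ℕ} (h : d1 ≤ d2) :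
    ctr K M A u d2 ≤ ctr K M A u d1 +
      K * (((Ico d1 d2).filter fun d => A j (M - d) (u / 2 ^ (M - d))).card + 1) := by
  have key : (ctr K M A u d2 + (K - 1 - j)) / K ≤ (ctr K M A u d1 + (K - 1 - j)) / K +
      ((Ico d1 d2).filter fun d => A j (M - d) (u / 2 ^ (M - d))).card := by
    induction d2, h using Nat.le_induction with
    | base => omega
    | succ d hd ih =>
      rw [Nat.Ico_succ_right_eq_insert_Ico hd, filter_insert, ctr]
      have hs := Nat.succ_div (a := ctr K M A u d + (K - 1 - j)) (b := K)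
      by_cases ha : A (ctr K M A u d % K) (M - d) (u / 2 ^ (M - d))
      · rw [if_pos ha, Nat.add_right_comm, hs]
        by_cases hdv : K ∣ ctr K M A u d + (K - 1 - j) + 1
        · have e : ctr K M A u d % K = j := by
            have a1 : ctr K M A u d + (K - j) ≡ j + (K - j) [MOD K] := by
              rw [show j + (K - j) = K by omega,
                show ctr K M A u d + (K - j) = ctr K M A u d + (K - 1 - j) + 1 by omega]
              exact ((Nat.modEq_zero_iff_dvd).2 hdv).trans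
                ((Nat.modEq_zero_iff_dvd).2 dvd_rfl).symm
            exact Eq.trans (Nat.ModEq.add_right_cancel' _ a1) (Nat.mod_eq_of_lt hj)
          rw [if_pos hdv, if_pos (e ▸ ha), card_insert_of_notMem (by simp)]
          omega
        · rw [if_neg hdv]
          split_ifs
          · rw [card_insert_of_notMem (by simp)]; omega
          · omega
      · rw [if_neg ha, add_zero]
        split_ifs
        · rw [card_insert_of_notMem (by simp)]; omega
        · omega
  have a1 := Nat.lt_div_mul_add (a := ctr K M A u d2 + (K - 1 - j)) (b := K) (by omega)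
  have a2 := Nat.div_mul_le_self (ctr K M A u d1 + (K - 1 - j)) K
  have a3 := Nat.mul_le_mul_right K key
  rw [Nat.add_mul] at a3
  rw [Nat.mul_add, Nat.mul_comm K]
  omega

end Pool.Agent.MP_8c2300_lc.H39

end MrgPart1

-- marker of a merged file
example : 731051 + 861495 = 731051 + 861495 := rfl
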