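import Pool.Agent.MP_8c2300_lc.h39.Look

/-! The counter in a dyadic tree adapted to the degrees grows little below most edges. -/

namespace Pool.Agent.MP_8c2300_lc.H39

open Finset Pool.Agent.MP_8c2300_lc.PP

variable {ι : Type}

/-- The node `x` of level `h` carries an edge of page `j`. -/
def Act (E : Finset ι) (s t pg : ι → ℕ) (pos : ℕ → ℕ) (j h x : ℕ) : Prop :=
  ∃ e ∈ E, pg e = j ∧ lev (pos (s e)) (pos (t e)) = h ∧ pos (s e) / 2 ^ h = x

/-- All gaps inside the node have potential at least `g`. -/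
def Ge (f pos : ℕ → ℕ) (g h x : ℕ) : Prop :=
  ∀ i, pos i / 2 ^ h = x → pos (i + 1) / 2 ^ h = x → g ≤ f i

theorem Ge.down {f pos : ℕ → ℕ} {g h h' u : ℕ} (H : Ge f pos g h (u / 2 ^ h)) (hh : h' ≤ h) :
    Ge f pos g h' (u / 2 ^ h') := fun i h1 h2 => H i (same_mono h1 hh) (same_mono h2 hh)

theorem hole_ex {a c h b k : ℕ} (hl : a / 2 ^ h = c / 2 ^ h) (hb : b ≤ h)
    (hg : 4 * 2 ^ h ≤ 2 ^ b * (c - a)) (h1 : 1 ≤ k) (h2 : k ≤ 2) :
    (a / 2 ^ (h - b) + k) / 2 ^ b = a / 2 ^ h ∧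
      ∀ u, u / 2 ^ (h - b) = a / 2 ^ (h - b) + k → a < u ∧ u < c := by
  have hP : 0 < 2 ^ (h - b) := Nat.two_pow_pos _
  have e : 2 ^ h = 2 ^ b * 2 ^ (h - b) := by rw [← pow_add]; congr 1; omega
  have h3 : 4 * 2 ^ (h - b) ≤ c - a := by
    refine Nat.le_of_mul_le_mul_left ?_ (Nat.two_pow_pos b)
    rw [e] at hg; linarith
  have key : ∀ u, u / 2 ^ (h - b) = a / 2 ^ (h - b) + k → a < u ∧ u < c := by
    intro u hu
    have a1 := Nat.div_mul_le_self u (2 ^ (h - b))
    have a2 := Nat.lt_div_mul_add (a := u) hP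
    have a3 := Nat.div_mul_le_self a (2 ^ (h - b))
    have a4 := Nat.lt_div_mul_add (a := a) hP
    rw [hu, Nat.add_mul] at a1 a2
    have a5 := Nat.mul_le_mul_right (2 ^ (h - b)) h1
    have a6 := Nat.mul_le_mul_right (2 ^ (h - b)) h2
    omega
  refine ⟨?_, key⟩
  obtain ⟨b1, b2⟩ := key ((a / 2 ^ (h - b) + k) * 2 ^ (h - b)) (Nat.mul_div_cancel _ hP)
  have b3 := CoreAux.sandwich b1.le b2.le hl
  rwa [e, Nat.mul_comm (2 ^ b), ← Nat.div_div_eq_div_mul, Nat.mul_div_cancel _ hP,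
    Nat.mul_comm, ← e] at b3

/-- Positions adapted to the weights `deg`. -/
structure Lay (E : Finset ι) (s t : ι → ℕ) (pos deg : ℕ → ℕ) (b M : ℕ) : Prop where
  sep : ∀ z z', z < z' → pos z + deg z + deg z' ≤ pos z'
  ds : ∀ e ∈ E, 1 ≤ deg (s e) ∧ 1 ≤ deg (t e)
  top : ∀ z, 2 * (pos z + deg z) ≤ 2 ^ M
  good : ∀ e ∈ E, 4 * 2 ^ lev (pos (s e)) (pos (t e)) ≤ 2 ^ b * (pos (t e) - pos (s e))

variable {K ρ b M : ℕ} {E : Finset ι} {s t pg : ι → ℕ} {pos deg f : ℕ → ℕ}

theorem Lay.mono (L : Lay E s t pos deg b M) : Monotone pos :=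
  monotone_nat_of_le_succ fun z => by have := L.sep z (z + 1) (by omega); omega

theorem Lay.lt (L : Lay E s t pos deg b M) {x y : ℕ} (h : pos x < pos y) : x < y :=
  L.mono.reflect_lt h

theorem Lay.lev_lt (L : Lay E s t pos deg b M) {e : ι} (he : e ∈ E) :
    lev (pos (s e)) (pos (t e)) < M := by
  have h1 := L.top (s e)
  have h2 := L.top (t e)
  have h3 := L.ds e he
  rcases M with _ | M
  · omega
  · rw [pow_succ] at h1 h2
    exact Nat.lt_succ_of_le (Outer.lev_le (by omega) (by omega))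

/-- The dyadic core of the vertex `z`. -/
def Core (pos deg : ℕ → ℕ) (z u : ℕ) : Prop :=
  u / 2 ^ Nat.log 2 (deg z) = pos z / 2 ^ Nat.log 2 (deg z)

theorem Core.near {z u : ℕ} (h : Core pos deg z u) (hz : 1 ≤ deg z) :
    pos z < u + deg z ∧ u < pos z + deg z := by
  have h0 : 2 ^ Nat.log 2 (deg z) ≤ deg z := Nat.pow_log_le_self 2 (by omega)
  have hP : 0 < 2 ^ Nat.log 2 (deg z) := Nat.two_pow_pos _
  have a1 := Nat.div_mul_le_self u (2 ^ Nat.log 2 (deg z))
  have a2 := Nat.lt_div_mul_add (a := u) hP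
  have a3 := Nat.div_mul_le_self (pos z) (2 ^ Nat.log 2 (deg z))
  have a4 := Nat.lt_div_mul_add (a := pos z) hP
  unfold Core at h
  rw [h] at a1 a2
  omega

theorem Core.act (L : Lay E s t pos deg b M) (hP : Pg K E s t pg) {z u j h : ℕ}
    (hc : Core pos deg z u) (hz : 1 ≤ deg z) (ha : Act E s t pg pos j h (u / 2 ^ h)) :
    Nat.log 2 (deg z) ≤ h := by
  by_contra hn
  obtain ⟨e, he, -, h2, h3⟩ := ha
  have h4 : pos (t e) / 2 ^ h = u / 2 ^ h := by rw [← h3, ← h2, lev_spec]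
  have c1 : Core pos deg z (pos (s e)) := (same_mono h3 (by omega)).trans hc
  have c2 : Core pos deg z (pos (t e)) := (same_mono h4 (by omega)).trans hc
  have n1 := c1.near hz
  have n2 := c2.near hz
  have h5 := (hP.1 e he).1
  by_cases h6 : z < t e
  · have := L.sep _ _ h6; omega
  · have := L.sep (s e) z (by omega); omega

open Classical in
theorem few (L : Lay E s t pos deg b M) (hP : Pg K E s t pg) (hU : Uq K ρ E s t pg f) (q : ℕ) :
    ∃ B : Finset ℕ, B.card * 2 ^ q ≤ ρ * (K + 1) * (2 * (b + 1) ^ 2 * 2 ^ M) ∧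
      ∀ e ∈ E, ∀ z, z = s e ∨ z = t e → (∀ u, Core pos deg z u → u ∈ B) ∨
        ctr K M (Act E s t pg pos) (pos z) M ≤
          ctr K M (Act E s t pg pos) (pos z) (M - lev (pos (s e)) (pos (t e))) +
            2 * (K * ((b + 1) * ((b + 1) * (2 ^ (b + 1) * q)) + b + 2)) := by
  set A := Act E s t pg pos with hA
  set w := (b + 1) * ((b + 1) * (2 ^ (b + 1) * q)) with hw
  set a1 : ℕ → ℕ → ℕ → Prop := fun g h x =>
    b + 1 ≤ h ∧ Ge f pos g h x ∧ ¬ Ge f pos (g + 1) h x ∧ A (g % K) h x with ha1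
  set a2 : ℕ → ℕ → ℕ → ℕ → Prop := fun g j h x => b + 1 ≤ h ∧ Ge f pos g h x ∧ A j h x with ha2
  have e1 : ∀ g h x, ∃ y, a1 g h x → y / 2 ^ b = x ∧ Ge f pos (g + 1) (h - b) y := by
    intro g h x
    by_cases H : a1 g h x
    · obtain ⟨h1, h2, -, e, he, h3, h4, h5⟩ := H
      have h6 : pos (s e) / 2 ^ h = pos (t e) / 2 ^ h := by rw [← h4, lev_spec]
      have h7 := L.good e he
      rw [h4] at h7
      obtain ⟨p1, p2⟩ := hole_ex (k := 1) h6 (by omega) h7 le_rfl (by omega)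
      obtain ⟨p3, p4⟩ := hole_ex (k := 2) h6 (by omega) h7 (by omega) le_rfl
      have hin : ∀ i, s e ≤ i → i < t e → g ≤ f i := fun i i1 i2 =>
        h2 i ((CoreAux.sandwich (L.mono i1) (L.mono i2.le) h6).trans h5)
          ((CoreAux.sandwich (L.mono (by omega)) (L.mono i2) h6).trans h5)
      by_cases G : Ge f pos (g + 1) (h - b) (pos (s e) / 2 ^ (h - b) + 1)
      · exact ⟨_, fun _ => ⟨p1.trans h5, G⟩⟩
      · refine ⟨_, fun _ => ⟨p3.trans h5, fun i' i1 i2 => ?_⟩⟩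
        by_contra hn
        unfold Ge at G
        push Not at G
        obtain ⟨i, j1, j2, j3⟩ := G
        have k1 := L.lt (p2 _ j1).1
        have k2 := L.lt (p4 _ i2).2
        have k3 : i < i' := L.lt (Nat.lt_of_div_lt_div (c := 2 ^ (h - b)) (by omega))
        have k4 := hin i k1.le (by omega)
        have k5 := hin i' (by omega) (by omega)
        obtain ⟨k, m1, m2, m3⟩ := hU.2 e he i i' k1.le k3 (by omega) (by omega)
          (by rw [h3]; congr 1; omega)
        have := hin k m1 m2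
        omega
    · exact ⟨0, fun h => absurd h H⟩
  have e2 : ∀ j h x, ∃ y, b + 1 ≤ h → A j h x → y / 2 ^ b = x ∧ ∃ e ∈ E, pg e = j ∧
      pos (s e) / 2 ^ h = x ∧ pos (t e) / 2 ^ h = x ∧
        ∀ u, u / 2 ^ (h - b) = y → pos (s e) < u ∧ u < pos (t e) := by
    intro j h x
    by_cases H : A j h x
    · obtain ⟨e, he, h3, h4, h5⟩ := H
      have h6 : pos (s e) / 2 ^ h = pos (t e) / 2 ^ h := by rw [← h4, lev_spec]
      have h7 := L.good e he
      rw [h4] at h7
      refine ⟨pos (s e) / 2 ^ (h - b) + 1, fun h1 _ => ?_⟩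
      obtain ⟨p1, p2⟩ := hole_ex (k := 1) h6 (by omega) h7 le_rfl (by omega)
      exact ⟨p1.trans h5, e, he, h3, h5, h6 ▸ h5, p2⟩
    · exact ⟨0, fun _ h => absurd h H⟩
  choose y1 hy1 using e1
  choose y2 hy2 using e2
  set B1 : ℕ → Finset ℕ := fun g => (range (2 ^ M)).filter fun u =>
    w ≤ ((range M).filter fun h => a1 g h (u / 2 ^ h)).card with hB1
  set B2 : ℕ → ℕ → Finset ℕ := fun g j => (range (2 ^ M)).filter fun u =>
    (∀ h h', a2 g j h (u / 2 ^ h) → a2 g j h' (u / 2 ^ h') → h' + b ≤ h →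
      u / 2 ^ (h - b) ≠ y2 j h (u / 2 ^ h)) ∧
    w ≤ ((range M).filter fun h => a2 g j h (u / 2 ^ h)).card with hB2
  have c1 : ∀ g, (B1 g).card * 2 ^ q ≤ 2 * (b + 1) ^ 2 * 2 ^ M := by
    intro g
    refine look b q M (a1 g) (y1 g) (fun h x H => ⟨H.1, (hy1 g h x H).1⟩) _ fun u hu => ?_
    obtain ⟨u1, u2⟩ := mem_filter.1 hu
    refine ⟨mem_range.1 u1, fun h h' H H' hh he => H'.2.2.1 ?_, u2.trans (card_le_card ?_)⟩
    · have := (hy1 g h _ H).2
      rw [← he] at this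
      exact this.down (by omega)
    · intro h hh; simpa only [mem_filter] using hh
  have c2 : ∀ g j, (B2 g j).card * 2 ^ q ≤ 2 * (b + 1) ^ 2 * 2 ^ M := by
    intro g j
    refine look b q M (a2 g j) (y2 j) (fun h x H => ⟨H.1, (hy2 j h x H.1 H.2.2).1⟩) _
      fun u hu => ?_
    obtain ⟨u1, u2, u3⟩ := mem_filter.1 hu
    refine ⟨mem_range.1 u1, u2, u3.trans (card_le_card ?_)⟩
    intro h hh; simpa only [mem_filter] using hh
  refine ⟨(range ρ).biUnion fun g => B1 g ∪ (range K).biUnion (B2 (g + 1)), ?_, ?_⟩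
  · calc _ ≤ (∑ g ∈ range ρ, ((B1 g).card + ∑ j ∈ range K, (B2 (g + 1) j).card)) * 2 ^ q :=
          Nat.mul_le_mul_right _ (card_biUnion_le.trans (Finset.sum_le_sum fun g _ =>
            (card_union_le _ _).trans (Nat.add_le_add_left card_biUnion_le _)))
      _ ≤ ∑ _g ∈ range ρ, (K + 1) * (2 * (b + 1) ^ 2 * 2 ^ M) := by
          rw [Finset.sum_mul]
          refine Finset.sum_le_sum fun g _ => ?_
          rw [Nat.add_mul, Finset.sum_mul]
          have := Finset.sum_le_sum fun j (_ : j ∈ range K) => c2 (g + 1) j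
          rw [Finset.sum_const, card_range, smul_eq_mul] at this
          have := c1 g
          rw [Nat.add_mul K]
          omega
      _ = _ := by simp [mul_assoc]
  intro e he z hz
  set lv := lev (pos (s e)) (pos (t e)) with hlv
  have hlM : lv < M := L.lev_lt he
  have hst := (hP.1 e he).1
  have hdz : 1 ≤ deg z := by
    rcases hz with rfl | rfl
    exacts [(L.ds e he).1, (L.ds e he).2]
  have hzl : pos z / 2 ^ lv = pos (s e) / 2 ^ lv := by
    rcases hz with rfl | rfl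
    exacts [rfl, (lev_spec _ _).symm]
  have hgap : ¬ Ge f pos (f (s e) + 1) lv (pos z / 2 ^ lv) := fun H => by
    have := H (s e) hzl.symm
      ((CoreAux.sandwich (L.mono (by omega)) (L.mono hst) (lev_spec _ _)).trans hzl.symm)
    omega
  have hex : ∃ g, ¬ Ge f pos (g + 1) lv (pos z / 2 ^ lv) := ⟨_, hgap⟩
  set g := Nat.find hex with hg
  have g1 : ¬ Ge f pos (g + 1) lv (pos z / 2 ^ lv) := Nat.find_spec hex
  have g2 : g < ρ := (Nat.find_min' hex hgap).trans_lt (hU.1 _)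
  have g3 : Ge f pos g lv (pos z / 2 ^ lv) := by
    rcases h : g with _ | k
    · exact fun _ _ _ => Nat.zero_le _
    · exact not_not.1 (Nat.find_min hex (m := k) (by omega))
  have hex' : ∃ h, ¬ Ge f pos (g + 1) h (pos z / 2 ^ h) := ⟨_, g1⟩
  set h0 := Nat.find hex' with hh0
  have g4 : h0 ≤ lv := Nat.find_min' hex' g1
  have g5 : ∀ h, h0 ≤ h → ¬ Ge f pos (g + 1) h (pos z / 2 ^ h) := fun h hh H =>
    Nat.find_spec hex' (H.down hh)
  have g6 : ∀ h, h < h0 → Ge f pos (g + 1) h (pos z / 2 ^ h) := fun h hh =>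
    not_not.1 (Nat.find_min hex' hh)
  have hK : 0 < K := by have := (hP.1 e he).2; omega
  have tr : ∀ u j h, Core pos deg z u → A j h (pos z / 2 ^ h) → u / 2 ^ h = pos z / 2 ^ h :=
    fun u j h hu H => same_mono hu (Core.act L hP (u := pos z) rfl hdz H)
  have tr' : ∀ u j h, Core pos deg z u → A j h (u / 2 ^ h) → u / 2 ^ h = pos z / 2 ^ h :=
    fun u j h hu H => same_mono hu (Core.act L hP hu hdz H)
  have hu : ∀ u, Core pos deg z u → u ∈ range (2 ^ M) := fun u hu => by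
    have := hu.near hdz
    have := L.top z
    exact mem_range.2 (by omega)
  by_cases w1 : w ≤ ((range M).filter fun h => a1 g h (pos z / 2 ^ h)).card
  · refine Or.inl fun u hc => mem_biUnion.2 ⟨g, mem_range.2 g2, mem_union_left _ ?_⟩
    refine mem_filter.2 ⟨hu u hc, w1.trans (card_le_card fun h hh => ?_)⟩
    rw [mem_filter] at hh ⊢
    exact ⟨hh.1, tr u _ h hc hh.2.2.2.2 ▸ hh.2⟩
  by_cases w2 : w ≤ ((range M).filter fun h => a2 (g + 1) (pg e) h (pos z / 2 ^ h)).card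
  · refine Or.inl fun u hc => mem_biUnion.2 ⟨g, mem_range.2 g2, mem_union_right _ ?_⟩
    refine mem_biUnion.2 ⟨pg e, mem_range.2 (hP.1 e he).2, mem_filter.2 ⟨hu u hc, ?_,
      w2.trans (card_le_card fun h hh => ?_)⟩⟩
    · intro h h' H H' hh hy
      have t1 := tr' u _ h hc H.2.2
      have t2 := same_mono (tr' u _ h' hc H'.2.2) (show h' ≤ h - b by omega)
      obtain ⟨-, e', he', p1, p2, p3, p4⟩ := hy2 (pg e) h _ H.1 H.2.2
      obtain ⟨p5, p6⟩ := p4 (pos z) (t2.symm.trans hy)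
      have p7 : h < lv := by
        by_contra hn
        exact g5 h (by omega) (t1 ▸ H.2.1)
      have p8 : pos (s e) / 2 ^ h ≠ pos (t e) / 2 ^ h := fun hc =>
        absurd (lev_le_iff.2 hc) (by omega)
      rcases hz with rfl | rfl
      · refine hP.2 e' he' e he p1 ⟨L.lt p5, L.lt p6, L.lt ?_⟩
        by_contra hn
        exact p8 ((CoreAux.sandwich (L.mono hst.le) (not_lt.1 hn)
          (t1.symm.trans p3.symm)).symm)
      · refine hP.2 e he e' he' p1.symm ⟨L.lt ?_, L.lt p5, L.lt p6⟩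
        by_contra hn
        exact p8 ((CoreAux.sandwich (not_lt.1 hn) (L.mono hst.le) (p2.trans t1)).trans
          (p2.trans t1))
    · rw [mem_filter] at hh ⊢
      exact ⟨hh.1, tr u _ h hc hh.2.2.2 ▸ hh.2⟩
  right
  have cnt : ∀ (d1 d2 j : ℕ) (S : Finset ℕ), d2 ≤ M →
      (∀ d, d1 ≤ d → d < d2 → b + 1 ≤ M - d → A j (M - d) (pos z / 2 ^ (M - d)) → M - d ∈ S) →
      ¬ w ≤ S.card →
      ((Ico d1 d2).filter fun d => A j (M - d) (pos z / 2 ^ (M - d))).card + 1 ≤ w + b + 2 := by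
    intro d1 d2 j S hd hP hw
    have : ((Ico d1 d2).filter fun d => A j (M - d) (pos z / 2 ^ (M - d))).card ≤
        (S ∪ range (b + 1)).card := by
      refine card_le_card_of_injOn (fun d => M - d) (fun d hd => ?_) fun d hd d' hd' hh => ?_
      · simp only [coe_filter, mem_Ico, Set.mem_ofPred_eq] at hd
        simp only [coe_union, coe_range, Set.mem_union, mem_coe, Set.mem_Iio]
        by_cases hb : b + 1 ≤ M - d
        · exact Or.inl (hP d hd.1.1 hd.1.2 hb hd.2)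
        · exact Or.inr (by omega)
      · simp only [coe_filter, mem_Ico, Set.mem_ofPred_eq] at hd hd' hh
        omega
    have := card_union_le S (range (b + 1))
    rw [card_range] at this
    omega
  set d1 := min M (M + 1 - h0) with hd1
  have b1 := ctr_bound (K := K) (M := M) (A := A) (pos z) (g % K) (Nat.mod_lt _ hK)
    (d1 := M - lv) (d2 := d1) (by omega)
  have b2 := ctr_bound (K := K) (M := M) (A := A) (pos z) (pg e) (hP.1 e he).2
    (d1 := d1) (d2 := M) (by omega)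
  have b3 := cnt (M - lv) d1 (g % K) _ (by omega) (fun d x1 x2 x3 x4 => mem_filter.2
    ⟨mem_range.2 (by omega), x3, g3.down (by omega), g5 _ (by omega), x4⟩) w1
  have b4 := cnt d1 M (pg e) _ le_rfl (fun d x1 x2 x3 x4 => mem_filter.2
    ⟨mem_range.2 (by omega), x3, g6 _ (by omega), x4⟩) w2
  have b5 := Nat.mul_le_mul_left K b3
  have b6 := Nat.mul_le_mul_left K b4
  omega

end Pool.Agent.MP_8c2300_lc.H39
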