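import Mathlib.Analysis.SpecialFunctions.Pow.Real
import Mathlib.Data.Finset.Functor
import Pool.Agent.MP_8c2300_lc.h39.Tree

-- ======== part 0: formerly Pool.Agent.MP_8c2300_lc.h39.Step
section MrgPart0

/-! One round: a potential bounded by `ρ` is replaced by potentials of size about `log ρ`. -/

namespace Pool.Agent.MP_8c2300_lc.H39

open Finset Pool.Agent.MP_8c2300_lc.PP

variable {ι : Type} {K ρ b M : ℕ} {E : Finset ι} {s t pg : ι → ℕ} {pos deg f : ℕ → ℕ}

theorem uq_class (L : Lay E s t pos deg b M) (hP : Pg K E s t pg) (a r κ : ℕ) (hr : 0 < r)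
    (F : Finset ι) (hF : ∀ e ∈ F, e ∈ E ∧
      (ctr K M (Act E s t pg pos) (pos (s e)) (M - lev (pos (s e)) (pos (t e))) / K + a) / r = κ) :
    Uq K (r * K + 1) F s t pg fun i => min
      (ctr K M (Act E s t pg pos) (pos i) (M - lev (pos i) (pos (i + 1))) + a * K - κ * r * K)
      (r * K) := by
  refine ⟨fun i => Nat.lt_succ_of_le (min_le_right _ _), fun e he i i' h1 h2 h3 h4 h5 => ?_⟩
  obtain ⟨he, hκ⟩ := hF e he
  set A := Act E s t pg pos with hA
  set lv := lev (pos (s e)) (pos (t e)) with hlv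
  set n := ctr K M A (pos (s e)) (M - lv) with hn
  have hlM : lv < M := L.lev_lt he
  have hst := (hP.1 e he).1
  have hK : 0 < K := by have := (hP.1 e he).2; omega
  have hl1 : 1 ≤ lv := by
    by_contra h
    have h6 := lev_le_iff.1 (show lev (pos (s e)) (pos (t e)) ≤ 0 by omega)
    have := L.sep _ _ hst
    have := L.ds e he
    simp only [pow_zero, Nat.div_one] at h6
    omega
  have hin : ∀ k, s e ≤ k → k ≤ t e → pos k / 2 ^ lv = pos (s e) / 2 ^ lv := fun k k1 k2 =>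
    CoreAux.sandwich (L.mono k1) (L.mono k2) (lev_spec _ _)
  have hle : ∀ k, s e ≤ k → k < t e → lev (pos k) (pos (k + 1)) ≤ lv := fun k k1 k2 =>
    lev_le_iff.2 ((hin k k1 k2.le).trans (hin (k + 1) (by omega) k2).symm)
  have hc : ∀ k, s e ≤ k → k < t e → ctr K M A (pos k) (M - lv) = n := fun k k1 k2 =>
    ctr_congr (hin k k1 k2.le) _ (by omega)
  have hge : ∀ k, s e ≤ k → k < t e →
      n ≤ ctr K M A (pos k) (M - lev (pos k) (pos (k + 1))) := fun k k1 k2 =>
    hc k k1 k2 ▸ ctr_mono _ (by have := hle k k1 k2; omega)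
  obtain ⟨m, m1, m2, m3⟩ : ∃ m, s e ≤ m ∧ m < t e ∧ lev (pos m) (pos (m + 1)) = lv := by
    by_contra hc
    push Not at hc
    have : ∀ k, s e ≤ k → k ≤ t e → pos (s e) / 2 ^ (lv - 1) = pos k / 2 ^ (lv - 1) := by
      intro k k1
      induction k, k1 using Nat.le_induction with
      | base => exact fun _ => rfl
      | succ k k1 ih =>
        intro k2
        refine (ih (by omega)).trans (lev_le_iff.1 ?_)
        have := hle k k1 k2
        have := hc k k1 k2
        omega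
    have := lev_le_iff.2 (this _ hst.le le_rfl)
    omega
  have n1 : κ * r * K ≤ n + a * K ∧ n + a * K < κ * r * K + r * K := by
    have a1 := Nat.div_mul_le_self (n / K + a) r
    have a2 := Nat.lt_div_mul_add (a := n / K + a) hr
    have a3 := Nat.div_mul_le_self n K
    have a4 := Nat.lt_div_mul_add (a := n) hK
    rw [hκ] at a1 a2
    have a5 := Nat.mul_le_mul_right K a1
    have a6 := Nat.mul_le_mul_right K (Nat.succ_le_of_lt a2)
    rw [Nat.add_mul] at a5
    rw [Nat.succ_mul, Nat.add_mul, Nat.add_mul] at a6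
    omega
  have g1 := hge i h1 (by omega)
  have g2 := hge i' (by omega) h3
  by_cases hi : n < ctr K M A (pos i) (M - lev (pos i) (pos (i + 1)))
  · refine ⟨m, m1, m2, ?_⟩
    dsimp only
    rw [m3, hc m m1 m2]
    omega
  exfalso
  dsimp only at h4 h5
  have g3 : ctr K M A (pos i) (M - lev (pos i) (pos (i + 1))) = n := by omega
  have g4 : ctr K M A (pos i') (M - lev (pos i') (pos (i' + 1))) = n := by omega
  have g5 : n % K = pg e := by
    rw [g3, min_eq_left (by omega)] at h5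
    rw [← h5, ← Nat.add_mul_mod_self_right n a K,
      ← Nat.add_mul_mod_self_right (n + a * K - κ * r * K) (κ * r) K, Nat.sub_add_cancel n1.1]
  have top : ∀ k, s e ≤ k → k < t e → ctr K M A (pos k) (M - lev (pos k) (pos (k + 1))) = n →
      pos k / 2 ^ (lv - 1) < pos (k + 1) / 2 ^ (lv - 1) := by
    intro k k1 k2 k3
    refine lt_of_le_of_ne (Nat.div_le_div_right (L.mono (by omega))) fun k4 => ?_
    have k5 := lev_le_iff.2 k4
    have k6 : ctr K M A (pos k) (M - lv + 1) ≤ n := k3 ▸ ctr_mono _ (by omega)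
    rw [ctr, hc k k1 k2, if_pos] at k6
    · omega
    · rw [show M - (M - lv) = lv by omega]
      exact ⟨e, he, g5.symm, rfl, (hin k k1 k2.le).symm⟩
  have t1 := top i h1 (by omega) g3
  have t2 := top i' (by omega) h3 g4
  have t3 : pos (i + 1) / 2 ^ (lv - 1) ≤ pos i' / 2 ^ (lv - 1) :=
    Nat.div_le_div_right (L.mono h2)
  have t4 := (hin i h1 (by omega)).trans (hin (i' + 1) (by omega) h3).symm
  rw [show lv = lv - 1 + 1 by omega, pow_succ, ← Nat.div_div_eq_div_mul,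
    ← Nat.div_div_eq_div_mul] at t4
  omega

theorem sum_core (L : Lay E s t pos deg b M) (Z B : Finset ℕ)
    (hZ : ∀ z ∈ Z, 1 ≤ deg z ∧ ∀ u, Core pos deg z u → u ∈ B) : ∑ z ∈ Z, deg z ≤ 2 * B.card := by
  classical
  have h1 : ∀ z ∈ Z, deg z ≤ 2 * (B.filter (Core pos deg z)).card := by
    intro z hz
    have a1 : deg z < 2 ^ (Nat.log 2 (deg z) + 1) := Nat.lt_pow_succ_log_self (by norm_num) _
    set k := Nat.log 2 (deg z) with hk
    have a2 : Ico (pos z / 2 ^ k * 2 ^ k) (pos z / 2 ^ k * 2 ^ k + 2 ^ k) ⊆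
        B.filter (Core pos deg z) := by
      intro u hu
      rw [mem_Ico] at hu
      have : Core pos deg z u := Nat.div_eq_of_lt_le hu.1 (by rw [Nat.succ_mul]; exact hu.2)
      exact mem_filter.2 ⟨(hZ z hz).2 u this, this⟩
    have a3 := card_le_card a2
    rw [Nat.card_Ico] at a3
    rw [pow_succ] at a1
    omega
  refine (Finset.sum_le_sum h1).trans ?_
  rw [← Finset.mul_sum, ← card_biUnion]
  · exact Nat.mul_le_mul_left _ (card_le_card (biUnion_subset.2 fun _ _ => filter_subset _ _))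
  · intro z hz z' hz' hne
    refine disjoint_left.2 fun u h1 h2 => ?_
    have a1 := (mem_filter.1 h1).2.near (hZ z hz).1
    have a2 := (mem_filter.1 h2).2.near (hZ z' hz').1
    rcases Nat.lt_or_gt_of_ne hne with h | h
    · have := L.sep _ _ h; omega
    · have := L.sep _ _ h; omega

theorem step {r q D : ℕ} {γ : ℝ} (hγ : 0 ≤ γ) (hb : 2 ≤ b) (hr : 0 < r)
    (h : DQ K (r * K + 1) γ D) :
    DQ K ρ (γ + (8 / 2 ^ b + 128 * ρ * (K + 1) * (b + 1) ^ 2 / 2 ^ q +
      (2 * (2 * ((b + 1) * ((b + 1) * (2 ^ (b + 1) * q)) + b + 2) + 1) : ℕ) / r)) D := by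
  classical
  intro ι E s t pg f hP hU
  rcases E.eq_empty_or_nonempty with rfl | hne
  · obtain ⟨C, hC, -, hl⟩ := h ι ∅ s t pg (fun _ => 0) hP ⟨by simp, by simp⟩
    exact ⟨C, hC, by simp [subset_empty.1 hC], hl⟩
  have hE : 0 < E.card := card_pos.2 hne
  have hK : 0 < K := by obtain ⟨e, he⟩ := hne; have := (hP.1 e he).2; omega
  set deg : ℕ → ℕ := fun z =>
    (E.filter fun e => s e = z).card + (E.filter fun e => t e = z).card with hdeg
  set c : ℕ → ℕ := fun z => 2 * ∑ i ∈ range z, deg i + deg z with hc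
  have c1 : ∀ z, c z + deg z ≤ 4 * E.card := fun z => by
    have a1 := sum_fiber E s (range (z + 1))
    have a2 := sum_fiber E t (range (z + 1))
    have a3 : ∑ i ∈ range (z + 1), deg i ≤ 2 * E.card := by
      simp only [hdeg, Finset.sum_add_distrib]; omega
    rw [sum_range_succ] at a3
    simp only [hc]; omega
  have c2 : ∀ z z', z < z' → c z + deg z + deg z' ≤ c z' := fun z z' hz => by
    have a1 : ∑ i ∈ range (z + 1), deg i ≤ ∑ i ∈ range z', deg i :=
      Finset.sum_le_sum_of_subset (range_mono hz)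
    rw [sum_range_succ] at a1
    simp only [hc]; omega
  have c3 : ∀ e ∈ E, 1 ≤ deg (s e) ∧ 1 ≤ deg (t e) := fun e he =>
    ⟨le_add_right (card_pos.2 ⟨e, mem_filter.2 ⟨he, rfl⟩⟩),
      le_add_left (card_pos.2 ⟨e, mem_filter.2 ⟨he, rfl⟩⟩)⟩
  set m := Nat.log 2 (4 * E.card) + 1 with hm
  have m1 : 4 * E.card < 2 ^ m := Nat.lt_pow_succ_log_self (by norm_num) _
  have m2 : 2 ^ m ≤ 8 * E.card := by
    have := Nat.pow_log_le_self 2 (show 4 * E.card ≠ 0 by omega)
    rw [hm, pow_succ]; omega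
  obtain ⟨a, ha, ha'⟩ := avg (range (2 ^ m)) ⟨0, mem_range.2 (by omega)⟩ E
    (fun a e => 2 ^ b * (c (t e) - c (s e)) < 4 * 2 ^ lev (c (s e) + a) (c (t e) + a)) 8 (2 ^ b)
    (fun e he => by
      rw [card_range]
      have := c2 _ _ (hP.1 e he).1
      have := c3 e he
      have := c1 (t e)
      exact Outer.bad_shifts hb (by omega) (by omega))
  rw [mem_range] at ha
  set E1 := E.filter fun e =>
    ¬ 2 ^ b * (c (t e) - c (s e)) < 4 * 2 ^ lev (c (s e) + a) (c (t e) + a) with hE1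
  have hs1 : E1 ⊆ E := filter_subset _ _
  have L : Lay E1 s t (fun z => c z + a) deg b (m + 2) := by
    refine ⟨fun z z' hz => ?_, fun e he => c3 e (hs1 he), fun z => ?_, fun e he => ?_⟩
    · have := c2 z z' hz; omega
    · have := c1 z; rw [pow_add]; omega
    · have := (mem_filter.1 he).2
      rw [Nat.add_sub_add_right]
      omega
  have hP1 := hP.mono hs1
  obtain ⟨B, hB, hB'⟩ := few L hP1 ⟨hU.1, fun e he => hU.2 e (hs1 he)⟩ q
  set W := (b + 1) * ((b + 1) * (2 ^ (b + 1) * q)) + b + 2 with hW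
  set n : ℕ → ℕ → ℕ := ctr K (m + 2) (Act E1 s t pg fun z => c z + a) with hn
  set Z := (E.image s ∪ E.image t).filter fun z =>
    ∀ u, Core (fun z => c z + a) deg z u → u ∈ B with hZ
  have z1 : ∑ z ∈ Z, deg z ≤ 2 * B.card := sum_core L Z B fun z hz => by
    obtain ⟨h1, h2⟩ := mem_filter.1 hz
    refine ⟨?_, h2⟩
    rcases mem_union.1 h1 with h1 | h1 <;> obtain ⟨e, he, rfl⟩ := mem_image.1 h1
    exacts [(c3 e he).1, (c3 e he).2]
  rw [Finset.sum_add_distrib, Finset.sum_card_fiberwise_eq_card_filter,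
    Finset.sum_card_fiberwise_eq_card_filter] at z1
  set E2 := E1.filter fun e => s e ∉ Z ∧ t e ∉ Z with hE2
  set nd : ι → ℕ := fun e => n (c (s e) + a) (m + 2 - lev (c (s e) + a) (c (t e) + a)) with hnd
  obtain ⟨o, -, ho⟩ := avg (range r) ⟨0, mem_range.2 hr⟩ E2
    (fun o e => (nd e / K + o) / r ≠ (n (c (s e) + a) (m + 2) / K + o) / r ∨
      (nd e / K + o) / r ≠ (n (c (t e) + a) (m + 2) / K + o) / r) (2 * (2 * W + 1)) r
    (fun e he => by
      obtain ⟨he, z2, z3⟩ := mem_filter.1 he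
      have key : ∀ z, z = s e ∨ z = t e → ((range r).filter fun o =>
          (nd e / K + o) / r ≠ (n (c z + a) (m + 2) / K + o) / r).card ≤ 2 * W + 1 := by
        intro z hz
        have k1 : n (c z + a) (m + 2 - lev (c (s e) + a) (c (t e) + a)) = nd e := by
          have := L.lev_lt he
          rcases hz with rfl | rfl
          exacts [rfl, ctr_congr (lev_spec _ _).symm _ (by omega)]
        have k2 : nd e ≤ n (c z + a) (m + 2) := k1 ▸ ctr_mono _ (by omega)
        have k3 : n (c z + a) (m + 2) ≤ nd e + 2 * (K * W) := by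
          refine k1 ▸ (hB' e he z hz).resolve_left fun H => ?_
          rcases hz with rfl | rfl
          · exact z2 (mem_filter.2 ⟨mem_union_left _ (mem_image_of_mem _ (hs1 he)), H⟩)
          · exact z3 (mem_filter.2 ⟨mem_union_right _ (mem_image_of_mem _ (hs1 he)), H⟩)
        refine (card_shift _ _ r hr (Nat.div_le_div_right k2)).trans ?_
        have k4 := Nat.div_le_div_right (c := K) k3
        rw [show 2 * (K * W) = K * (2 * W) by ring, Nat.add_mul_div_left _ _ hK] at k4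
        omega
      rw [card_range, filter_or]
      have := key _ (Or.inl rfl)
      have := key _ (Or.inr rfl)
      exact Nat.mul_le_mul_right _ ((card_union_le _ _).trans (by omega)))
  set κ : ℕ → ℕ := fun z => (n (c z + a) (m + 2) / K + o) / r with hκ
  refine Red.cut hγ (fun e => ¬ (e ∈ E2 ∧ (nd e / K + o) / r = κ (s e) ∧
    (nd e / K + o) / r = κ (t e))) ?_ (Red.union hγ κ (fun e he => ?_) fun k => ?_)
  · have s1 : (E.filter fun e => ¬ (e ∈ E2 ∧ (nd e / K + o) / r = κ (s e) ∧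
        (nd e / K + o) / r = κ (t e))) ⊆ (E.filter fun e =>
          2 ^ b * (c (t e) - c (s e)) < 4 * 2 ^ lev (c (s e) + a) (c (t e) + a)) ∪
        ((E.filter fun e => s e ∈ Z) ∪ E.filter fun e => t e ∈ Z) ∪
        E2.filter fun e => (nd e / K + o) / r ≠ κ (s e) ∨ (nd e / K + o) / r ≠ κ (t e) := by
      intro e he
      obtain ⟨he, hn⟩ := mem_filter.1 he
      by_cases x1 : e ∈ E2
      · exact mem_union_right _ (mem_filter.2 ⟨x1, not_and_or.1 fun H => hn ⟨x1, H⟩⟩)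
      refine mem_union_left _ ?_
      by_cases x2 : e ∈ E1
      · refine mem_union_right _ ?_
        rcases not_and_or.1 fun H => x1 (mem_filter.2 ⟨x2, H⟩) with x3 | x3
        · exact mem_union_left _ (mem_filter.2 ⟨he, not_not.1 x3⟩)
        · exact mem_union_right _ (mem_filter.2 ⟨he, not_not.1 x3⟩)
      · exact mem_union_left _ (mem_filter.2 ⟨he, not_not.1 fun H => x2 (mem_filter.2 ⟨he, H⟩)⟩)
    have s2 := (card_le_card s1).trans ((card_union_le _ _).trans (Nat.add_le_add_right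
      ((card_union_le _ _).trans (Nat.add_le_add_left (card_union_le _ _) _)) _))
    have s3 : E2.card ≤ E.card := card_le_card ((filter_subset _ _).trans hs1)
    have r1 : (((E.filter fun e => 2 ^ b * (c (t e) - c (s e)) <
        4 * 2 ^ lev (c (s e) + a) (c (t e) + a)).card : ℕ) : ℝ) ≤ 8 / 2 ^ b * E.card := by
      rw [div_mul_eq_mul_div, le_div_iff₀ (by positivity)]
      exact_mod_cast ha'
    have r2 : (((E.filter fun e => s e ∈ Z).card + (E.filter fun e => t e ∈ Z).card : ℕ) : ℝ) ≤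
        128 * ρ * (K + 1) * (b + 1) ^ 2 / 2 ^ q * E.card := by
      rw [div_mul_eq_mul_div, le_div_iff₀ (by positivity)]
      have a1 := Nat.mul_le_mul_right (2 ^ q) z1
      have a2 : ρ * (K + 1) * (2 * (b + 1) ^ 2 * 2 ^ (m + 2)) ≤
          ρ * (K + 1) * (2 * (b + 1) ^ 2 * (32 * E.card)) :=
        Nat.mul_le_mul_left _ (Nat.mul_le_mul_left _ (by rw [pow_add]; omega))
      have a3 : ((E.filter fun e => s e ∈ Z).card + (E.filter fun e => t e ∈ Z).card) * 2 ^ q ≤
          128 * ρ * (K + 1) * (b + 1) ^ 2 * E.card := by nlinarith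
      exact_mod_cast a3
    have r3 : (((E2.filter fun e => (nd e / K + o) / r ≠ κ (s e) ∨
        (nd e / K + o) / r ≠ κ (t e)).card : ℕ) : ℝ) ≤ (2 * (2 * W + 1) : ℕ) / r * E.card := by
      rw [div_mul_eq_mul_div, le_div_iff₀ (by positivity)]
      exact_mod_cast ho.trans (Nat.mul_le_mul_left _ s3)
    have s4 := (Nat.cast_le (α := ℝ)).2 s2
    rw [Nat.cast_add, Nat.cast_add] at s4
    linarith
  · have := not_not.1 (mem_filter.1 he).2
    exact this.2.1.symm.trans this.2.2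
  · have hs : ∀ e ∈ (E.filter fun e => ¬ ¬ (e ∈ E2 ∧ (nd e / K + o) / r = κ (s e) ∧
        (nd e / K + o) / r = κ (t e))).filter fun e => κ (s e) = k,
        e ∈ E1 ∧ (nd e / K + o) / r = k := fun e he => by
      have := not_not.1 (mem_filter.1 (mem_filter.1 he).1).2
      exact ⟨(mem_filter.1 this.1).1, this.2.1.trans (mem_filter.1 he).2⟩
    exact h ι _ s t pg _ (hP1.mono fun e he => (hs e he).1) (uq_class L hP1 o r k hr _ hs)

end Pool.Agent.MP_8c2300_lc.H39

end MrgPart0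

-- ======== part 1: formerly Pool.Agent.MP_8c2300_lc.h39.Depth
section MrgPart1

/-! Size-free depth reduction and the segregator theorem. -/

namespace Pool.Agent.MP_8c2300_lc.H39

open Finset Pool.Agent.MP_8c2300_lc.PP Pool.Agent.MP_8c2300_lc.PP.Num

theorem DQ.mono {K ρ ρ' D : ℕ} {γ γ' : ℝ} (h : DQ K ρ γ D) (h1 : ρ' ≤ ρ) (h2 : γ ≤ γ') :
    DQ K ρ' γ' D := fun ι E s t pg f hP hU => by
  obtain ⟨C, c1, c2, c3⟩ := h ι E s t pg f hP ⟨fun i => (hU.1 i).trans_le h1, hU.2⟩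
  exact ⟨C, c1, c2.trans (mul_le_mul_of_nonneg_right h2 (by positivity)), c3⟩

theorem sq_le_two_pow {y : ℕ} (hy : 10 ≤ y) : (y + 4) ^ 2 ≤ 2 ^ y := by
  induction y, hy using Nat.le_induction with
  | base => norm_num
  | succ y hy ih => rw [pow_succ 2]; nlinarith

theorem step_y {K y D : ℕ} {γ : ℝ} (hγ : 0 ≤ γ) (hy : K + 10 ≤ y) (h : DQ K (2 ^ (6 * y)) γ D) :
    DQ K (2 ^ 2 ^ y) (γ + 3 / 2 ^ y) D := by
  have a1 := sq_le_two_pow (show 10 ≤ y by omega)
  have a2 : K + 1 ≤ 2 ^ y := by nlinarith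
  have a3 : 2 ^ (4 * y + 9) * K + 1 ≤ 2 ^ (6 * y) := by
    have b1 : 2 ^ (4 * y + 9) * 2 ^ y ≤ 2 ^ (6 * y) := by
      rw [← pow_add]; exact two_le (by omega)
    have b2 : 1 ≤ 2 ^ (4 * y + 9) := Nat.one_le_two_pow
    nlinarith
  refine (step (ρ := 2 ^ 2 ^ y) (b := y + 3) (q := 2 ^ (y + 1)) hγ (by omega)
    (Nat.two_pow_pos _) (h.mono a3 le_rfl)).mono le_rfl (add_le_add_right ?_ _)
  have p0 : (0 : ℝ) < 2 ^ y := by positivity
  have r1 : (8 : ℝ) / 2 ^ (y + 3) = 1 / 2 ^ y := by rw [pow_add]; field_simp; norm_num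
  have r2 : (128 : ℝ) * (2 ^ 2 ^ y : ℕ) * (K + 1) * ((y + 3 : ℕ) + 1) ^ 2 / 2 ^ 2 ^ (y + 1) ≤
      1 / 2 ^ y := by
    rw [div_le_div_iff₀ (by positivity) p0, one_mul]
    have b1 : 2 ^ 7 * 2 ^ y * 2 ^ y * 2 ^ y ≤ 2 ^ 2 ^ y := by
      rw [← pow_add, ← pow_add, ← pow_add]
      exact two_le (by nlinarith)
    have b2 : 128 * (K + 1) * (y + 4) ^ 2 * 2 ^ y ≤ 2 ^ 7 * 2 ^ y * 2 ^ y * 2 ^ y := by gcongr; norm_num
    have b3 : 2 ^ 2 ^ (y + 1) = 2 ^ 2 ^ y * 2 ^ 2 ^ y := by rw [← pow_add]; congr 1; ring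
    have b4 : 128 * 2 ^ 2 ^ y * (K + 1) * (y + 3 + 1) ^ 2 * 2 ^ y ≤ 2 ^ 2 ^ (y + 1) := by
      rw [b3]
      calc _ = 2 ^ 2 ^ y * (128 * (K + 1) * (y + 4) ^ 2 * 2 ^ y) := by ring
        _ ≤ _ := Nat.mul_le_mul_left _ (b2.trans b1)
    exact_mod_cast b4
  have r3 : ((2 * (2 * ((y + 3 + 1) * ((y + 3 + 1) * (2 ^ (y + 3 + 1) * 2 ^ (y + 1))) + (y + 3) + 2)
      + 1) : ℕ) : ℝ) / (2 ^ (4 * y + 9) : ℕ) ≤ 1 / 2 ^ y := by
    rw [div_le_div_iff₀ (by positivity) p0, one_mul]
    have b1 : (y + 3 + 1) * ((y + 3 + 1) * (2 ^ (y + 3 + 1) * 2 ^ (y + 1))) ≤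
        32 * (2 ^ y * 2 ^ y * 2 ^ y) := by
      calc _ = 32 * ((y + 4) ^ 2 * 2 ^ y * 2 ^ y) := by ring
        _ ≤ _ := by gcongr
    have b2 : y + 6 ≤ 2 ^ y * 2 ^ y * 2 ^ y := by
      have : 1 ≤ 2 ^ y * 2 ^ y := Nat.mul_pos (Nat.two_pow_pos _) (Nat.two_pow_pos _)
      nlinarith
    have b3 : 2 ^ (4 * y + 9) = 512 * (2 ^ y * 2 ^ y * 2 ^ y) * 2 ^ y := by ring
    have b4 := Nat.mul_le_mul_right (2 ^ y) (show 2 * (2 * ((y + 3 + 1) * ((y + 3 + 1) *
      (2 ^ (y + 3 + 1) * 2 ^ (y + 1))) + (y + 3) + 2) + 1) ≤ 512 * (2 ^ y * 2 ^ y * 2 ^ y) by omega)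
    rw [← b3] at b4
    exact_mod_cast b4
  have r4 : (3 : ℝ) / 2 ^ y = 1 / 2 ^ y + 1 / 2 ^ y + 1 / 2 ^ y := by ring
  linarith

theorem chain {K Y D : ℕ} {γ : ℝ} (hγ : 0 ≤ γ) (hY : K + 10 ≤ Y) (h : DQ K (2 ^ (6 * Y)) γ D) :
    DR K (γ + 6 / 2 ^ Y) D := by
  have key : ∀ y, Y ≤ y → DQ K (2 ^ 2 ^ y) (γ + (6 / 2 ^ Y - 3 / 2 ^ y)) D := by
    intro y hy
    induction y, hy using Nat.le_induction with
    | base => exact (step_y hγ hY h).mono le_rfl (le_of_eq (by ring))
    | succ y hy ih =>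
      have a1 := sq_le_two_pow (show 10 ≤ y by omega)
      have a2 : (3 : ℝ) / 2 ^ y ≤ 3 / 2 ^ Y :=
        div_le_div_of_nonneg_left (by norm_num) (by positivity) (pow_le_pow_right₀ (by norm_num) hy)
      have a3 : (6 : ℝ) / 2 ^ Y = 3 / 2 ^ Y + 3 / 2 ^ Y := by ring
      have a4 : (0 : ℝ) ≤ 3 / 2 ^ Y := by positivity
      refine (step_y (y := y + 1) (by linarith) (by omega)
        (ih.mono (two_le (by nlinarith)) le_rfl)).mono le_rfl (le_of_eq ?_)
      rw [pow_succ]; field_simp; ring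
  intro ι E s t pg hP
  set T := E.sup t with hT
  have a1 : T < 2 ^ 2 ^ (Y + T) :=
    (Nat.lt_two_pow_self (n := T)).trans_le
      (two_le ((Nat.lt_two_pow_self (n := T)).le.trans (two_le (by omega))))
  refine (key (Y + T) (by omega)).mono le_rfl (add_le_add_right (sub_le_self _ (by positivity)) _)
    ι E s t pg (fun i => min i T) hP ⟨fun i => (min_le_right _ _).trans_lt a1, ?_⟩
  intro e he i i' _ h2 h3 h4
  have : t e ≤ T := le_sup he
  dsimp only at h4
  omega

/-- Size-free depth reduction for graphs with `K` pages. -/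
theorem depth_red (K Y : ℕ) (hY : K + 10 ≤ Y) : DR K (7 * K / 2 ^ Y) (2 ^ 2 ^ (7 * Y * K)) := by
  induction K with
  | zero =>
    intro ι E s t pg hP
    exact ⟨∅, empty_subset _, by simp, fun _ => 0, by simp, fun e he => absurd (hP.1 e he).2 (by simp)⟩
  | succ K ih =>
    have h1 := chain (by positivity) hY (fin_step (ρ := 2 ^ (6 * Y)) (by positivity)
      (Nat.two_pow_pos Y) (ih (by omega)))
    intro ι E s t pg hP
    obtain ⟨C, c1, c2, l, c3, c4⟩ := h1 ι E s t pg hP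
    refine ⟨C, c1, c2.trans (le_of_eq ?_), l, fun z => (c3 z).trans_le ?_, c4⟩
    · push_cast; ring
    · rw [← pow_add, ← pow_mul]
      refine two_le ?_
      have a1 : Y + 1 ≤ 2 ^ Y := Nat.lt_two_pow_self
      have a2 : 1 ≤ 2 ^ (7 * Y * K) := Nat.one_le_two_pow
      calc (2 ^ (7 * Y * K) + Y) * 2 ^ (6 * Y) ≤ 2 ^ (7 * Y * K) * 2 ^ Y * 2 ^ (6 * Y) :=
            Nat.mul_le_mul_right _ (by nlinarith)
        _ = _ := by rw [← pow_add, ← pow_add]; congr 1; ring

theorem anc {ι : Type} (F : Finset ι) (s t : ι → ℕ) (l : ℕ → ℕ) (d : ℕ)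
    (hl : ∀ e ∈ F, l (s e) < l (t e)) (hd : ∀ v, (F.filter fun e => t e = v).card ≤ d) (n : ℕ) :
    ∀ v, l v ≤ n → ∃ A : Finset ℕ, v ∈ A ∧ A.card ≤ (d + 1) ^ n ∧ ∀ e ∈ F, t e ∈ A → s e ∈ A := by
  classical
  induction n with
  | zero =>
    intro v hv
    refine ⟨{v}, mem_singleton_self _, by simp, fun e he h => ?_⟩
    have := hl e he
    rw [mem_singleton.1 h] at this
    omega
  | succ n ih =>
    intro v hv
    choose! A h1 h2 h3 using ih
    have h4 : ∀ e ∈ F.filter fun e => t e = v, l (s e) ≤ n := fun e he => by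
      have := hl e (mem_filter.1 he).1
      rw [(mem_filter.1 he).2] at this
      omega
    refine ⟨insert v ((F.filter fun e => t e = v).biUnion fun e => A (s e)), mem_insert_self _ _,
      (card_insert_le _ _).trans ?_, fun e he h => mem_insert_of_mem ?_⟩
    · have a1 := Finset.card_biUnion_le_card_mul _ _ _ fun e he => h2 _ (h4 e he)
      have a2 := Nat.mul_le_mul_right ((d + 1) ^ n) (hd v)
      have a3 : 1 ≤ (d + 1) ^ n := Nat.one_le_pow _ _ (by omega)
      rw [pow_succ, Nat.mul_add, Nat.mul_comm _ d]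
      omega
    · rcases mem_insert.1 h with h | h
      · exact mem_biUnion.2 ⟨e, mem_filter.2 ⟨he, h⟩, h1 _ (h4 e (mem_filter.2 ⟨he, h⟩))⟩
      · obtain ⟨e', he', h⟩ := mem_biUnion.1 h
        exact mem_biUnion.2 ⟨e', he', h3 _ (h4 e' he') e he h⟩

/-- Segregators of size `N / (log log N) ^ (1 / K)`. -/
theorem seg2 (κ : Type) [Fintype κ] (d : ℕ) : ∃ K c : ℕ, ∀ W N P : ℕ,
    2 ^ 2 ^ W ^ K ≤ N → c * N ≤ P * W → SegAt κ d N P := by
  classical
  set k := Fintype.card κ with hk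
  refine ⟨14 * k + 2, 7 * k * d + (2 ^ (k + 11) + d + 2), fun W N P h1 h2 G hG => ?_⟩
  by_cases hW : W < 2 ^ (k + 11) + d + 2
  · have : N ≤ P := by
      refine Nat.le_of_mul_le_mul_left ?_ (show 0 < 2 ^ (k + 11) + d + 2 by omega)
      exact (Nat.mul_le_mul_right N (Nat.le_add_left _ _)).trans
        (h2.trans ((Nat.mul_le_mul_left P hW.le).trans_eq (Nat.mul_comm _ _)))
    exact ⟨∅, empty_subset _, by simp, fun τ hτ => ⟨range N, mem_range.2 hτ, by simpa,
      fun e he _ _ => mem_range.2 ((hG.fwd e he).1.trans (hG.fwd e he).2)⟩⟩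
  set Y := k + 10 + (Nat.log 2 W + 1) with hY
  have w0 : 0 < 2 ^ (k + 11) := Nat.two_pow_pos _
  have y1 : W ≤ 2 ^ Y := (Nat.lt_pow_succ_log_self (by norm_num) W).le.trans (two_le (by omega))
  have y2 : 2 ^ Y ≤ W ^ 2 := by
    have := Nat.pow_log_le_self 2 (show W ≠ 0 by omega)
    calc 2 ^ Y = 2 ^ (k + 11) * 2 ^ Nat.log 2 W := by rw [← pow_add]; congr 1; omega
      _ ≤ W * W := Nat.mul_le_mul (by omega) this
      _ = _ := by ring
  obtain ⟨C, c1, c2, l, c3, c4⟩ := depth_red k Y (by omega) _ G (fun e => e.1) (fun e => e.2.1)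
    (fun e => Fintype.equivFin κ e.2.2) ⟨fun e he => ⟨(hG.fwd e he).1, Fin.is_lt _⟩,
      fun e he e' he' h => hG.noncross e he e' he'
        ((Fintype.equivFin κ).injective (Fin.ext h))⟩
  have g1 : G.card ≤ N * d := by
    simpa using Outer.card_at hG (range N) G fun e he => ⟨he, Or.inr (mem_range.2 (hG.fwd e he).2)⟩
  refine ⟨C, c1, ?_, fun τ _ => ?_⟩
  · rw [div_mul_eq_mul_div, le_div_iff₀ (by positivity)] at c2
    have c5 : C.card * 2 ^ Y ≤ 7 * k * G.card := by exact_mod_cast c2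
    have c6 := Nat.mul_le_mul_left C.card y1
    have c7 := Nat.mul_le_mul_left (7 * k) g1
    refine Nat.le_of_mul_le_mul_right ?_ (show 0 < W by omega)
    nlinarith
  · obtain ⟨A, a1, a2, a3⟩ := anc (G \ C) (fun e => e.1) (fun e => e.2.1) l d
      (fun e he => c4 e (mem_sdiff.1 he).1 (mem_sdiff.1 he).2)
      (fun v => le_trans (card_le_card fun e he => mem_filter.2
        ⟨(mem_sdiff.1 (mem_filter.1 he).1).1, Or.inr (mem_filter.1 he).2⟩) (hG.deg v))
      _ τ (c3 τ).le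
    refine ⟨A, a1, a2.trans ?_, fun e he hn => a3 e (mem_sdiff.2 ⟨he, hn⟩)⟩
    set X := W ^ (14 * k) with hX
    have b1 : 2 ^ (7 * Y * k) ≤ X := by
      rw [show 7 * Y * k = Y * (7 * k) by ring, pow_mul, hX, show 14 * k = 2 * (7 * k) by ring,
        pow_mul W]
      exact Nat.pow_le_pow_left y2 _
    have b2 : 1 ≤ X := Nat.one_le_pow _ _ (by omega)
    have b3 : d * 2 ^ X + W ≤ 2 ^ W ^ (14 * k + 2) := by
      have e1 : W < 2 ^ W := Nat.lt_two_pow_self
      have e2 : 1 ≤ 2 ^ X := Nat.one_le_two_pow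
      calc d * 2 ^ X + W ≤ 2 * 2 ^ W * 2 ^ X := by nlinarith
        _ = 2 ^ (W + 1 + X) := by ring
        _ ≤ _ := two_le (by rw [pow_add, ← hX]; nlinarith)
    have b4 : (d + 1) ^ 2 ^ 2 ^ (7 * Y * k) * W ≤ N :=
      calc _ ≤ (2 ^ d) ^ 2 ^ X * 2 ^ W :=
            Nat.mul_le_mul ((Nat.pow_le_pow_left Nat.lt_two_pow_self _).trans
              (Nat.pow_le_pow_right (Nat.two_pow_pos d) (two_le b1))) Nat.lt_two_pow_self.le
        _ = 2 ^ (d * 2 ^ X + W) := by rw [← pow_mul, ← pow_add]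
        _ ≤ _ := (two_le b3).trans h1
    refine Nat.le_of_mul_le_mul_right (b4.trans ?_) (show 0 < W by omega)
    nlinarith

end Pool.Agent.MP_8c2300_lc.H39

end MrgPart1

-- ======== part 2: formerly Pool.Agent.MP_8c2300_lc.h39.Main
section MrgPart2

/-! Assembly with the new segregators (the argument is that of `PP.main_of`). -/

namespace Pool.Agent.MP_8c2300_lc.H39

open Filter Asymptotics Pool.Agent.MP_8c2300_lc.PP

def tw (K g : ℕ) : ℕ := 2 ^ 2 ^ (g * g) ^ K

/-- Discrete form of `T = n (log log n) ^ o(1)`. -/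
def Small (T : ℕ → ℕ) : Prop :=
  ∀ K M : ℕ, 2 ≤ K → ∃ g0, ∀ g ≥ g0, ∀ n, tw K g ≤ n → n ≤ tw K g ^ 5 → M * T n ≤ n * g

theorem four_le_tw {K g : ℕ} (hK : 2 ≤ K) (hg : 2 ≤ g) : 4 * (g * g) ≤ tw K g := by
  have h1 : (g * g) ^ 2 ≤ (g * g) ^ K := Nat.pow_le_pow_right (by nlinarith) hK
  have h2 : (g * g) ^ K < 2 ^ (g * g) ^ K := Nat.lt_two_pow_self
  have h3 : 2 ^ (g * g) ^ K < 2 ^ 2 ^ (g * g) ^ K := Nat.lt_two_pow_self
  have h4 : 4 ≤ g * g := by nlinarith
  unfold tw
  nlinarith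

theorem small_of_bigO {t : ℕ → ℕ} (C : ℕ)
    (h : ∀ δ : ℝ, 0 < δ → (fun n : ℕ => (t n : ℝ)) =O[atTop]
      fun n : ℕ => (n : ℝ) * Real.log (Real.log n) ^ δ) :
    Small fun n => C * (t n + 1) := by
  intro K M hK
  obtain ⟨c, hc0, hc⟩ := (h (1 / (2 * K + 1 : ℕ) * (1 / 2)) (by positivity)).exists_pos
  obtain ⟨a, ha⟩ := exists_nat_ge c
  have t0 : Tendsto (fun n : ℕ => (n : ℝ)) atTop atTop := tendsto_natCast_atTop_atTop
  have t1 := Real.tendsto_log_atTop.comp t0
  have t2 := Real.tendsto_log_atTop.comp t1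
  obtain ⟨n0, hn0⟩ := eventually_atTop.1 (hc.bound.and ((t0.eventually_gt_atTop 0).and
    ((t1.eventually_gt_atTop 0).and (t2.eventually_gt_atTop 0))))
  refine ⟨n0 + 2 * (M * C) + (2 * (M * C) * a) ^ 2 + 4, fun g hg n h1 h2 => ?_⟩
  have hlt := four_le_tw hK (show 2 ≤ g by omega)
  have hgg : g ≤ g * g := Nat.le_mul_self g
  obtain ⟨k0, k1, k2, k3⟩ := hn0 n (by omega)
  simp only [Function.comp] at k2 k3
  set y := (g * g) ^ K with hy
  have a1 : n ≤ 2 ^ 2 ^ (y + 3) := by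
    refine h2.trans ?_
    unfold tw
    rw [← hy, ← pow_mul]
    exact Nat.pow_le_pow_right (by norm_num) (by rw [pow_add]; omega)
  have b1 : Real.log n ≤ (2 ^ (y + 3) : ℕ) :=
    (log_le_of_le_two_pow (x := n) (n := 2 ^ (y + 3)) (by exact_mod_cast a1)).resolve_right
      (not_le.2 k1)
  have b2 : Real.log (Real.log n) ≤ (y + 3 : ℕ) :=
    (log_le_of_le_two_pow (x := Real.log n) (n := y + 3) (by exact_mod_cast b1)).resolve_right
      (not_le.2 k2)
  have a2 : y + 3 ≤ g ^ (2 * K + 1) := by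
    have e1 : 1 ≤ y := Nat.one_le_pow _ _ (by omega)
    have e2 := Nat.mul_le_mul_left y (show 4 ≤ g by omega)
    rw [pow_succ, pow_mul, sq, ← hy]
    omega
  have b3 : Real.log (Real.log n) ^ (1 / (2 * K + 1 : ℕ) * (1 / 2) : ℝ) ≤ √g := by
    refine (Real.rpow_le_rpow k3.le (b2.trans (by exact_mod_cast a2 :
      ((y + 3 : ℕ) : ℝ) ≤ (g : ℝ) ^ (2 * K + 1))) (by positivity)).trans (le_of_eq ?_)
    rw [← Real.rpow_natCast, ← Real.rpow_mul (by positivity), ← mul_assoc,
      mul_one_div_cancel (by positivity), one_mul, Real.sqrt_eq_rpow]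
  rw [Real.norm_of_nonneg (by positivity),
    Real.norm_of_nonneg (mul_nonneg k1.le (Real.rpow_nonneg k3.le _))] at k0
  have b4 : (2 * (M * C) * a : ℝ) ≤ √g := by
    refine Real.le_sqrt_of_sq_le ?_
    exact_mod_cast (by omega : (2 * (M * C) * a) ^ 2 ≤ g)
  have k7 : (2 * (M * C) : ℝ) * t n ≤ n * g := by
    have e1 : (t n : ℝ) ≤ a * (n * √g) :=
      k0.trans (mul_le_mul ha (mul_le_mul_of_nonneg_left b3 k1.le)
        (mul_nonneg k1.le (Real.rpow_nonneg k3.le _)) (by positivity))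
    calc _ ≤ (2 * (M * C) : ℝ) * (a * (n * √g)) := mul_le_mul_of_nonneg_left e1 (by positivity)
      _ = n * √g * (2 * (M * C) * a) := by ring
      _ ≤ n * √g * √g := mul_le_mul_of_nonneg_left b4 (by positivity)
      _ = _ := by rw [mul_assoc, Real.mul_self_sqrt (by positivity)]
  have k8 : 2 * (M * C) * t n ≤ n * g := by exact_mod_cast k7
  have k9 : 2 * (M * C) ≤ n * g := by
    have : 1 ≤ n := by omega
    nlinarith
  show M * (C * (t n + 1)) ≤ n * g
  nlinarith

theorem main_of (hT : TmSmStmt) (hS : SmTmStmt) (hK : ClockStmt) (hN : NStmt) (hR : RulesStmt)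
    (hU : UStmt) (hV : VStmt) (hc : VcStmt) (hs : VsStmt) :
    ∃ L : Set (List Bool), NLin L ∧
      ∀ (M : TM) (t : ℕ → ℕ), M.Det → M.Bounded t → (∀ x, M.Accepts x ↔ x ∈ L) →
        ∃ δ : ℝ, 0 < δ ∧ ¬ (fun n : ℕ => (t n : ℝ)) =O[atTop]
          fun n : ℕ => (n : ℝ) * Real.log (Real.log n) ^ δ := by
  classical
  by_contra hmain
  have H : ∀ L, NLin L → ∃ (E : SM) (T : ℕ → ℕ), Small T ∧
      ∀ x : List Bool, ∃ r : Bool, E.Halts x [] (T x.length) r ∧ (r = true ↔ x ∈ L) := by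
    intro L hL
    by_contra hcon
    refine hmain ⟨L, hL, fun M t h1 h2 h3 => ?_⟩
    by_contra h4
    push Not at h4
    refine hcon ?_
    obtain ⟨E, C, hE⟩ := hT M t h1 h2
    refine ⟨E, fun n => C * (t n + 1), small_of_bigO C h4, fun x => ?_⟩
    obtain ⟨r, g1, g2⟩ := hE x
    exact ⟨r, g1, g2.trans (h3 x)⟩
  obtain ⟨DU, encU, CU, hU⟩ := hU
  obtain ⟨E1, T1, hT1, hE1⟩ := H _ (nlin_clock hS hK DU CU fun o => decide (o = some true))
  obtain ⟨DV, cd, ce, encV, CV, hV1, hV2, hV3⟩ := hV E1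
  obtain ⟨E2, T2, hT2, hE2⟩ := H _ (nlin_clock hS hK DV (3 * CV) fun o => decide (o ≠ some false))
  obtain ⟨DN, CN, hN⟩ := hN E2 cd ce
  obtain ⟨tab, hR⟩ := hR DN
  obtain ⟨KU, hU⟩ := hU tab
  obtain ⟨K0, c, hG⟩ := seg2 E1.ι (5 * Fintype.card E1.ι)
  set K := K0 + 2 with hKdef
  have hK2 : 2 ≤ K := by omega
  set cc := (cd true).length + (cd false).length with hcc
  set A := (cc + ce.length + 5 * CV + 1) * (c + 1) with hA
  obtain ⟨g1, hg1⟩ := hT1 K 1 hK2
  obtain ⟨g2, hg2⟩ := hT2 K (2 * KU * CN * A) hK2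
  obtain ⟨g, hgg1, hgg2, hg3, hg4, hg5, hg6⟩ : ∃ g, g1 ≤ g ∧ g2 ≤ g ∧
      2 * KU * (CN + 3) * (A + 2) ≤ g ∧ A ≤ g ∧ (encU tab).length ≤ g ∧ 2 ≤ g :=
    ⟨g1 + g2 + 2 * KU * (CN + 3) * (A + 2) + A + (encU tab).length + 2,
      by omega, by omega, by omega, by omega, by omega, by omega⟩
  set z := tw K g with hz
  have hz4 : 4 * (g * g) ≤ z := four_le_tw hK2 hg6
  have hgz : g ≤ g * g := Nat.le_mul_self g
  have hz3 : z * z ≤ z ^ 3 := by
    have : z ^ 3 = z * z * z := by ring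
    rw [this]; exact Nat.le_mul_of_pos_right _ (by omega)
  have hzz : 8 * z ≤ z * z := Nat.mul_le_mul_right _ (by omega)
  obtain ⟨j, hj⟩ : ∃ j, z + (encU tab).length + j + 2 = z ^ 3 :=
    ⟨z ^ 3 - (z + (encU tab).length + 2), by omega⟩
  set x := mkX z (encU tab) j with hx
  have hxl : x.length = z ^ 3 := by rw [hx, length_mkX, hj]
  have hxz : lead x = z := lead_mkX _ _ _
  have hx0 : x ≠ [] := by
    intro h; rw [h] at hxl; simp at hxl; omega
  set w := x ++ List.replicate (lead x * x.length) false with hw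
  have hwl : w.length = (z + 1) * x.length := by rw [hw]; simp [hxz]; ring
  obtain ⟨hUc, hUs⟩ := hU z j (lead x * x.length) x w rfl rfl
  obtain ⟨r, hr1, hr2⟩ := hE1 w
  cases r with
  | true =>
    obtain ⟨gU, -, h2⟩ := hr2.1 rfl
    obtain ⟨ρs, h3, h4⟩ := hUs gU (CU * (w.length + 1)) (by simpa [SM.Halts] using h2)
    obtain ⟨y, n, h5⟩ := (hR x).2 ρs h3 h4
    obtain ⟨r2, k1, k2⟩ := hE2 (x.flatMap cd ++ ce ++ y)
    have k3 := (hN x y _ r2 k1).unique h5
    obtain ⟨rows, recs, k4, k5⟩ := hV2 x y hx0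
    obtain ⟨d, k6, k7⟩ := hc E1 x rows recs _ hx0 hr1
    obtain ⟨n', k8⟩ := k5 (List.replicate d false)
    rw [List.length_replicate, k7] at k8
    have k9 : r2 = true := k2.2 ⟨List.replicate d false, by simp; omega,
      decide_eq_true fun h => by simpa using k8.unique h⟩
    simp [k9] at k3
  | false =>
    have hw1 : z ≤ w.length := by rw [hwl, hxl]; nlinarith
    have hw2 : w.length ≤ z ^ 5 := by
      rw [hwl, hxl]
      have : z ^ 5 = z * z * z ^ 3 := by ring
      rw [this]; exact Nat.mul_le_mul_right _ (by omega)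
    have e1 := hg1 g hgg1 _ hw1 hw2
    have e2 : E1.Halts w [] ((z + 1) * g * x.length) false :=
      hr1.mono (by rw [hwl] at e1 ⊢; nlinarith)
    set P := c * (z + 1) / g + 1 with hP
    have hP1 : c * (z + 1) ≤ P * g := by
      have := Nat.lt_div_mul_add (a := c * (z + 1)) (b := g) (by omega)
      rw [hP]; nlinarith
    have hP2 : P * g ≤ (c + 1) * (z + 1) := by
      have := Nat.div_mul_le_self (c * (z + 1)) g
      rw [hP]; nlinarith
    have hP0 : 1 ≤ P := by rw [hP]; exact Nat.le_add_left _ _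
    have e3 : SegAt E1.ι (5 * Fintype.card E1.ι) ((z + 1) * g) P := by
      refine hG (g * g) _ _ ?_ (by nlinarith)
      have a1 : (g * g) ^ K0 ≤ (g * g) ^ K := Nat.pow_le_pow_right (by omega) (by omega)
      have a2 : 2 ^ 2 ^ (g * g) ^ K0 ≤ z :=
        Nat.pow_le_pow_right (by norm_num) (Nat.pow_le_pow_right (by norm_num) a1)
      nlinarith
    obtain ⟨rows, recs, k1, k2, k3⟩ := hs E1 x _ P hx0 e2 e3
    set y := encV rows recs ++ List.replicate (P * x.length) false with hy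
    set w' := x.flatMap cd ++ ce ++ y with hw'
    have hyl : y.length ≤ CV * (vsize rows recs + 1) + P * x.length := by
      have := hV1 rows recs
      rw [hy]; simp; omega
    have hyl' : P * x.length ≤ y.length := by rw [hy]; simp
    have hwl' : w'.length ≤ cc * x.length + ce.length + y.length := by
      have := length_flatMap_le cd x
      rw [← hcc] at this
      rw [hw']; simp only [List.length_append]; omega
    have hwl'' : y.length ≤ w'.length := by rw [hw']; simp only [List.length_append]; omega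
    obtain ⟨r2, k4, k5⟩ := hE2 w'
    have k6 : r2 = false := by
      by_contra hne
      obtain ⟨gV, a1, a2⟩ := k5.1 (by simpa using hne)
      have a3 := hV3 x rows recs (P * x.length) w' gV hx0 rfl
      rw [k1] at a3
      refine of_decide_eq_true a2 (a3.mono ?_)
      have a4 : x.length * numA rows recs.length gV.length ≤ w'.length := by
        have := k2 gV.length
        nlinarith
      nlinarith
    subst k6
    have hPb : x.length ≤ P * x.length := Nat.le_mul_of_pos_left _ hP0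
    have b1 : z ≤ w'.length := by omega
    obtain ⟨b4, b5⟩ := arith0 g z x.length w.length P c CV cc ce.length (vsize rows recs)
      y.length w'.length (by omega) hz4 hxl hwl hP0 hP2 k3 hyl hwl'
    rw [← hA] at b4 b5
    have b2 : w'.length ≤ z ^ 5 := by
      have a1 : g * w'.length ≤ g * w.length := by nlinarith
      exact (Nat.le_of_mul_le_mul_left a1 (by omega)).trans hw2
    have b3 := hg2 g hgg2 _ b1 b2
    obtain ⟨ρs, c1, c2, c3⟩ := (hR x).1 y _ (hN x y _ false k4)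
    have c4 := arith1 g x.length w.length A y.length w'.length (T2 w'.length) CN KU ρs.length
      (by rw [hA]; positivity) b4 b5 b3 hg3 c2
    obtain ⟨gU, c5, c6⟩ := hUc ρs c1 c3 c4
    have := hr2.2 ⟨gU, c5, decide_eq_true c6⟩
    simp at this

end Pool.Agent.MP_8c2300_lc.H39

end MrgPart2

-- marker of a merged file
example : 731051 + 882796 = 731051 + 882796 := rfl
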